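import Pool.Agent.W997.SR.Peb

/-!
# Pebblings are programs
-/

set_option autoImplicit false

namespace Pool.Agent.W997.SR

open Finset
open Pool.Agent.W997.TS (DBP bit)

section

variable {V : Type} {k : ℕ}

/-- Exactly `t` further steps lead to the output, and only variables in `W` are read. -/
def Leads {S : Type} (query : S → V) (next : S → Fin k → S ⊕ Bool) (x : V → Fin k)
    (W : V → Prop) (b : Bool) : ℕ → S ⊕ Bool → Prop
  | 0, o => o = Sum.inr b
  | t + 1, o => ∃ s, o = Sum.inl s ∧ W (query s) ∧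
      Leads query next x W b t (next s (x (query s)))

theorem Leads.map {S S' : Type} (query : S → V) (next : S → Fin k → S ⊕ Bool)
    (query' : S' → V) (next' : S' → Fin k → S' ⊕ Bool) (f : S → S')
    (hq : ∀ s, query' (f s) = query s) (hn : ∀ s y, next' (f s) y = (next s y).map f id)
    (x : V → Fin k) (W : V → Prop) (b : Bool) : ∀ (t : ℕ) (o : S ⊕ Bool),
    Leads query next x W b t o → Leads query' next' x W b t (o.map f id)
  | 0, o, h => by
    have h1 : o = Sum.inr b := h
    rw [h1]
    rfl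
  | t + 1, o, ⟨s, hs, hW, h⟩ => by
    refine ⟨f s, by rw [hs]; rfl, by rw [hq]; exact hW, ?_⟩
    rw [hq, hn]
    exact Leads.map query next query' next' f hq hn x W b t _ h

theorem Leads.path (P : DBP V k) (x : V → Fin k) (W : V → Prop) (b : Bool) : ∀ (t : ℕ)
    (s : P.State), Leads P.query P.next x W b (t + 1) (Sum.inl s) →
    ∃ l : List P.State, l.length = t ∧ P.IsPath x s l b ∧ ∀ q ∈ s :: l, W (P.query q)
  | 0, s, ⟨s', hs, hW, h⟩ => by
    have e : s = s' := Sum.inl.inj hs
    subst e
    refine ⟨[], rfl, h, ?_⟩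
    intro q hq
    rw [List.mem_singleton] at hq
    rw [hq]
    exact hW
  | t + 1, s, ⟨s', hs, hW, h⟩ => by
    have e : s = s' := Sum.inl.inj hs
    subst e
    obtain ⟨s2, hs2, h2⟩ := h
    have h3 : Leads P.query P.next x W b (t + 1) (Sum.inl s2) := ⟨s2, rfl, h2⟩
    obtain ⟨l, hl, hp, hW'⟩ := Leads.path P x W b t s2 h3
    refine ⟨s2 :: l, by rw [List.length_cons, hl], ⟨hs2, hp⟩, ?_⟩
    intro q hq
    rcases List.mem_cons.1 hq with rfl | hq
    · exact hW
    · exact hW' q hq

end

namespace Dag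

variable {G : Dag} {k : ℕ} [NeZero k]

/-- The extension of an assignment by zero. -/
def ext (C : Finset G.Γ) (a : {c : G.Γ // c ∈ C} → Fin k) : G.Γ → Fin k := fun c =>
  if h : c ∈ C then a ⟨c, h⟩ else 0

/-- The variable is the one which is needed for the value of its node. -/
def Right (x : G.Var k → Fin k) (w : G.Var k) : Prop := w.2 = ∑ c ∈ G.kid w.1, value x c

theorem piece (v₀ : G.Γ) (p : ℕ) : ∀ (t : ℕ) (C : Finset G.Γ), G.Wins v₀ p t C →
    ∃ (S : Type) (_ : Fintype S) (query : S → G.Var k) (next : S → Fin k → S ⊕ Bool)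
      (start : (G.Γ → Fin k) → S ⊕ Bool), Fintype.card S ≤ t * k ^ p ∧
      ∀ (x : G.Var k → Fin k) (a : G.Γ → Fin k), (∀ c ∈ C, a c = value x c) →
        Leads query next x (Right x) (bit (value x v₀)) t (start a)
  | 0, C, hw => by
    refine ⟨Empty, inferInstance, fun s => s.elim, fun s => s.elim,
      fun a => Sum.inr (bit (a v₀)), by simp, ?_⟩
    intro x a ha
    change Sum.inr (bit (a v₀)) = Sum.inr (bit (value x v₀))
    rw [ha v₀ hw]
  | t + 1, C, ⟨C₁, hC, v, hv, hp, hw⟩ => by
    obtain ⟨S', hS', query', next', start', hcard, hlead⟩ := piece v₀ p t _ hw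
    refine ⟨({c : G.Γ // c ∈ C₁} → Fin k) ⊕ S', inferInstance,
      Sum.elim (fun a => (v, ∑ c ∈ G.kid v, ext C₁ a c)) query',
      Sum.elim (fun a y => (start' (Function.update (ext C₁ a) v y)).map Sum.inr id)
        (fun s y => (next' s y).map Sum.inr id),
      fun a => Sum.inl (Sum.inl (fun c => a c.1)), ?_, ?_⟩
    · rw [Fintype.card_sum, Fintype.card_fun, Fintype.card_fin, Fintype.card_coe]
      have h1 : C₁.card ≤ p := (card_le_card (subset_insert v C₁)).trans hp
      have h2 : k ^ C₁.card ≤ k ^ p := Nat.pow_le_pow_right NeZero.one_le h1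
      calc k ^ C₁.card + Fintype.card S' ≤ k ^ p + t * k ^ p := Nat.add_le_add h2 hcard
        _ = (t + 1) * k ^ p := by ring
    · intro x a ha
      have hext : ∀ c ∈ C₁, ext C₁ (fun c : {c : G.Γ // c ∈ C₁} => a c.1) c = value x c := by
        intro c hc
        unfold ext
        rw [dif_pos hc]
        exact ha c (hC hc)
      have hsum : ∑ c ∈ G.kid v, ext C₁ (fun c : {c : G.Γ // c ∈ C₁} => a c.1) c =
          ∑ c ∈ G.kid v, value x c := sum_congr rfl fun c hc => hext c (hv hc)
      refine ⟨Sum.inl (fun c => a c.1), rfl, hsum, ?_⟩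
      simp only [Sum.elim_inl]
      refine Leads.map query' next' _ _ Sum.inr (fun _ => rfl) (fun _ _ => rfl) x _ _ t _ ?_
      refine hlead x _ ?_
      intro c hc
      by_cases hcv : c = v
      · subst hcv
        rw [Function.update_self, hsum]
        exact (value_eq x c).symm
      · rw [Function.update_of_ne hcv]
        exact hext c (mem_of_mem_insert_of_ne hc hcv)

/-- **Pebblings are programs.** -/
theorem program (v₀ : G.Γ) (p t : ℕ) (hw : G.Pebbles v₀ p t) :
    ∃ P : DBP (G.Var k) k, P.size ≤ t * k ^ p ∧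
      ∀ x, ∃ m ≤ Fintype.card G.Γ, P.Run x t m (bit (value x v₀)) := by
  classical
  obtain ⟨S, hS, query, next, start, hcard, hlead⟩ := piece (k := k) v₀ p t ∅ hw
  rcases t with _ | t
  · exact absurd hw (notMem_empty v₀)
  obtain ⟨s0, hs0, -⟩ := hlead (fun _ => 0) (fun _ => 0) (fun c hc => absurd hc (notMem_empty c))
  refine ⟨{ State := S, start := s0, query := query, next := next }, hcard, ?_⟩
  intro x
  have h1 := hlead x (fun _ => 0) (fun c hc => absurd hc (notMem_empty c))
  rw [hs0] at h1
  obtain ⟨l, hl, hp, hW⟩ := Leads.path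
    { State := S, start := s0, query := query, next := next } x (Right x) _ t s0 h1
  refine ⟨_, ?_, l, hp, by rw [List.length_cons, hl], rfl⟩
  rw [← card_univ (α := G.Γ)]
  refine card_le_card_of_injOn Prod.fst (fun _ _ => mem_coe.2 (mem_univ _)) ?_
  intro w hw' w' hw'' heq
  have hR : ∀ w ∈ ((s0 :: l).map query).toFinset, Right x w := by
    intro w hw
    rw [List.mem_toFinset, List.mem_map] at hw
    obtain ⟨q, hq, rfl⟩ := hw
    exact hW q hq
  have h2 := hR w (mem_coe.1 hw')
  have h3 := hR w' (mem_coe.1 hw'')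
  unfold Right at h2 h3
  refine Prod.ext heq ?_
  rw [h2, h3, heq]

end Dag

end Pool.Agent.W997.SR
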