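import Pool.Agent.W997.TS.Defs

/-!
# Directed acyclic graphs: evaluation with sum addresses, and pebbling
-/

set_option autoImplicit false

namespace Pool.Agent.W997.SR

open Finset

/-- A finite directed acyclic graph. -/
structure Dag where
  /-- the nodes -/
  Γ : Type
  [fin : Fintype Γ]
  [dec : DecidableEq Γ]
  /-- the children of a node -/
  kid : Γ → Finset Γ
  /-- a rank function, which shows that there are no cycles -/
  rk : Γ → ℕ
  kid_lt : ∀ v, ∀ c ∈ kid v, rk c < rk v

attribute [instance] Dag.fin Dag.dec

namespace Dag

variable (G : Dag)

/-- Every node has at most `d` children and at most `d` parents. -/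
def DegLe (d : ℕ) : Prop :=
  ∀ v, (G.kid v).card ≤ d ∧ (univ.filter (fun a => v ∈ G.kid a)).card ≤ d

/-- The variables: every node has a table with `k` entries. -/
abbrev Var (k : ℕ) : Type := G.Γ × Fin k

variable {G}

/-- The value of a node: the entry of its table which belongs to the sum (modulo `k`) of the values
of its children. -/
def value {k : ℕ} [NeZero k] (x : G.Var k → Fin k) (v : G.Γ) : Fin k :=
  x (v, ∑ c : {c : G.Γ // c ∈ G.kid v}, value x c.1)
termination_by G.rk v
decreasing_by exact G.kid_lt v c.1 c.2

variable (G)

/-- From the configuration `C` of pebbles one can reach a configuration with a pebble on `v₀` by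
exactly `t` placements of pebbles; a pebble can be placed on a node if all its children carry
pebbles, pebbles can be removed at any time, and after every placement there are at most `p`
pebbles on the graph. -/
def Wins (v₀ : G.Γ) (p : ℕ) : ℕ → Finset G.Γ → Prop
  | 0, C => v₀ ∈ C
  | t + 1, C => ∃ C₁ ⊆ C, ∃ v, G.kid v ⊆ C₁ ∧ (insert v C₁).card ≤ p ∧
      Wins v₀ p t (insert v C₁)

/-- The node `v₀` can be pebbled with `p` pebbles and `t` placements, starting with the empty
graph. -/
def Pebbles (v₀ : G.Γ) (p t : ℕ) : Prop := G.Wins v₀ p t ∅

end Dag

end Pool.Agent.W997.SR
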