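import Pool.Agent.W997.SR.Core2
import Pool.Agent.W997.SR.Dag

/-!
# Computations which read few variables are pebblings
-/

set_option autoImplicit false

namespace Pool.Agent.W997.SR

open Finset
open Pool.Agent.W997.TS (DBP bit)

namespace Dag

variable (G : Dag) {k : ℕ} [NeZero k]

theorem Wins.mono {v₀ : G.Γ} {p : ℕ} : ∀ {t : ℕ} {C C' : Finset G.Γ}, C ⊆ C' →
    G.Wins v₀ p t C → G.Wins v₀ p t C'
  | 0, _, _, h, hw => h hw
  | _ + 1, _, _, h, ⟨C₁, h1, hw⟩ => ⟨C₁, h1.trans h, hw⟩

/-- The network of a graph. -/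
def net (k : ℕ) [NeZero k] : Net (G.Var k) G.Γ k where
  nodeOf := Prod.fst
  pos := fun z v => (v, ∑ c ∈ G.kid v, z c)
  kid := G.kid
  rk := G.rk
  nodeOf_pos := fun _ _ => rfl
  pos_congr := by
    intro z w v h
    rw [Prod.mk.injEq]
    exact ⟨rfl, sum_congr rfl h⟩
  pos_inj := by
    intro z w v c hc h hpos
    rw [Prod.mk.injEq] at hpos
    have h1 := hpos.2
    rw [← add_sum_erase _ _ hc, ← add_sum_erase _ _ hc] at h1
    have h2 : ∑ c' ∈ (G.kid v).erase c, z c' = ∑ c' ∈ (G.kid v).erase c, w c' := by
      apply sum_congr rfl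
      intro c' hc'
      exact h c' (mem_of_mem_erase hc') (ne_of_mem_erase hc')
    rw [h2] at h1
    exact add_right_cancel h1
  kid_lt := G.kid_lt

variable {G}

theorem value_eq (x : G.Var k → Fin k) (v : G.Γ) :
    value x v = x (v, ∑ c ∈ G.kid v, value x c) := by
  rw [value, sum_coe_sort (G.kid v) (fun c => value x c)]

theorem value_eq' (x : G.Var k → Fin k) (v : G.Γ) :
    value x v = x ((G.net k).pos (value x) v) := value_eq x v

/-! ### Live nodes -/

open Classical in
/-- The live nodes. -/
noncomputable def lives (P : DBP (G.Var k) k) (z : G.Γ → Fin k) (l : List P.State) :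
    Finset G.Γ := univ.filter (fun c => (G.net k).Live P z c l)

theorem mem_lives (P : DBP (G.Var k) k) (z : G.Γ → Fin k) (l : List P.State) (c : G.Γ) :
    c ∈ lives P z l ↔ (G.net k).Live P z c l := by
  classical
  unfold lives
  rw [mem_filter]
  exact ⟨fun h => h.2, fun h => ⟨mem_univ _, h⟩⟩

/-- **The computation is a pebbling.** -/
theorem wins_of_live (P : DBP (G.Var k) k) (z : G.Γ → Fin k) (v₀ : G.Γ) (p : ℕ) :
    ∀ l : List P.State, (∃ q' ∈ l, P.query q' = (G.net k).pos z v₀) →
    (∀ l', l' <:+ l → (lives P z l').card + 1 ≤ p) →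
    ∃ t ≤ l.length, G.Wins v₀ p t (lives P z l)
  | [], h, _ => by
    obtain ⟨q', hq', -⟩ := h
    exact absurd hq' (List.not_mem_nil)
  | q :: l, h, hB => by
    have hins : ∀ v, (insert v (lives P z (q :: l))).card ≤ p := by
      intro v
      exact (card_insert_le _ _).trans (hB _ List.suffix_rfl)
    by_cases h1 : P.query q = (G.net k).pos z v₀
    · refine ⟨1, by simp, lives P z (q :: l), Subset.refl _, v₀, ?_, hins v₀,
        mem_insert_self _ _⟩
      intro c hc
      rw [mem_lives]
      exact Or.inl ⟨v₀, hc, h1⟩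
    · have h2 : ∃ q' ∈ l, P.query q' = (G.net k).pos z v₀ := by
        obtain ⟨q', hq', h2⟩ := h
        rcases List.mem_cons.1 hq' with rfl | h3
        · exact absurd h2 h1
        · exact ⟨q', h3, h2⟩
      obtain ⟨t, ht, hw⟩ := wins_of_live P z v₀ p l h2
        (fun l' hl' => hB l' (hl'.trans (List.suffix_cons q l)))
      by_cases h3 : ∃ v, P.query q = (G.net k).pos z v
      · obtain ⟨v, hv⟩ := h3
        refine ⟨t + 1, by simpa using ht, lives P z (q :: l), Subset.refl _, v, ?_, hins v, ?_⟩
        · intro c hc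
          rw [mem_lives]
          exact Or.inl ⟨v, hc, hv⟩
        · refine Wins.mono G ?_ hw
          intro c hc
          rw [mem_lives] at hc
          rw [mem_insert, mem_lives]
          by_cases h4 : P.query q = (G.net k).pos z c
          · left
            have h5 := congrArg Prod.fst (h4.symm.trans hv)
            exact h5
          · exact Or.inr (Or.inr ⟨h4, hc⟩)
      · refine ⟨t, by simp only [List.length_cons]; omega, Wins.mono G ?_ hw⟩
        intro c hc
        rw [mem_lives] at hc ⊢
        exact Or.inr ⟨fun h4 => h3 ⟨c, h4⟩, hc⟩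

/-- Few independent live nodes means few live nodes. -/
theorem card_lives (P : DBP (G.Var k) k) (z : G.Γ → Fin k) (l : List P.State) (m d : ℕ)
    (hd : G.DegLe d) (hno : ¬ (G.net k).Crowded P z m l) (hd1 : 1 ≤ d) :
    (lives P z l).card + 1 ≤ m * d ^ 2 := by
  classical
  -- a largest independent set
  obtain ⟨U, hU, hmax⟩ := exists_max_image
    ((lives P z l).powerset.filter (fun U => (G.net k).Indep U)) card
    ⟨∅, by
      rw [mem_filter, mem_powerset]
      exact ⟨empty_subset _, fun a c _ c' _ h => absurd h (notMem_empty c)⟩⟩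
  rw [mem_filter, mem_powerset] at hU
  obtain ⟨hUs, hUi⟩ := hU
  have hUm : U.card + 1 ≤ m := by
    by_contra hcon
    obtain ⟨U', hU', hc⟩ := exists_subset_card_eq (show m ≤ U.card by omega)
    exact hno ⟨U', hc, Net.Indep.mono _ hUi hU', fun c h => (mem_lives P z l c).1 (hUs (hU' h))⟩
  have hcov : lives P z l ⊆ U.biUnion (fun u =>
      (univ.filter (fun a => u ∈ G.kid a)).biUnion (fun a => G.kid a)) := by
    intro c hc
    by_cases hcU : c ∈ U
    · -- a live node has a parent
      have hpar : ∀ l : List P.State, (G.net k).Live P z c l → ∃ a, c ∈ G.kid a := by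
        intro l
        induction l with
        | nil => intro h; exact h.elim
        | cons q l ih =>
          intro h
          rcases h with ⟨a, ha, -⟩ | h
          · exact ⟨a, ha⟩
          · exact ih h.2
      obtain ⟨a, ha⟩ := hpar l ((mem_lives P z l c).1 hc)
      rw [mem_biUnion]
      refine ⟨c, hcU, ?_⟩
      rw [mem_biUnion]
      exact ⟨a, mem_filter.2 ⟨mem_univ _, ha⟩, ha⟩
    · -- otherwise there is a conflict
      by_contra hcon
      have hind : (G.net k).Indep (insert c U) := by
        intro a c1 hc1 c2 hc2 h1 h2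
        rcases mem_insert.1 h1 with e1 | h1
        · rcases mem_insert.1 h2 with e2 | h2
          · rw [e1, e2]
          · exfalso
            apply hcon
            rw [mem_biUnion]
            refine ⟨c2, h2, ?_⟩
            rw [mem_biUnion]
            exact ⟨a, mem_filter.2 ⟨mem_univ _, hc2⟩, e1 ▸ hc1⟩
        · rcases mem_insert.1 h2 with e2 | h2
          · exfalso
            apply hcon
            rw [mem_biUnion]
            refine ⟨c1, h1, ?_⟩
            rw [mem_biUnion]
            exact ⟨a, mem_filter.2 ⟨mem_univ _, hc1⟩, e2 ▸ hc2⟩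
          · exact hUi a c1 hc1 c2 hc2 h1 h2
      have h3 := hmax (insert c U) (by
        rw [mem_filter, mem_powerset]
        exact ⟨insert_subset hc hUs, hind⟩)
      rw [card_insert_of_notMem hcU] at h3
      omega
  have h1 : (lives P z l).card ≤ U.card * d ^ 2 := by
    refine (card_le_card hcov).trans ?_
    refine card_biUnion_le_card_mul _ _ _ ?_
    intro u _
    refine (card_biUnion_le_card_mul _ _ d ?_).trans ?_
    · intro a _
      exact (hd a).1
    · rw [sq]
      exact Nat.mul_le_mul_right _ (hd u).2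
  have h2 : 1 ≤ d ^ 2 := Nat.one_le_pow _ _ hd1
  have h3 : U.card * d ^ 2 + d ^ 2 ≤ m * d ^ 2 := by
    calc U.card * d ^ 2 + d ^ 2 = (U.card + 1) * d ^ 2 := by ring
      _ ≤ m * d ^ 2 := Nat.mul_le_mul_right _ hUm
  omega

/-- **Good computations are pebblings.** -/
theorem wins_of_good (P : DBP (G.Var k) k) (z : G.Γ → Fin k) (v₀ : G.Γ) (m d : ℕ)
    (hd : G.DegLe d) (hd1 : 1 ≤ d) (l : List P.State) (hg : (G.net k).Good P m v₀ z l) :
    ∃ t ≤ l.length, G.Pebbles v₀ (m * d ^ 2) t := by
  classical
  obtain ⟨hroot, hstart, hcr⟩ := hg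
  have hempty : lives P z l = ∅ := by
    rw [eq_empty_iff_forall_notMem]
    intro c hc
    rw [mem_lives] at hc
    apply hstart
    refine ⟨{c}, card_singleton c, ?_, ?_⟩
    · intro a c1 _ c2 _ h1 h2
      rw [mem_singleton] at h1 h2
      rw [h1, h2]
    · intro c' hc'
      rw [mem_singleton] at hc'
      rw [hc']
      exact hc
  have hm : 1 ≤ m := by
    obtain ⟨q', hq', -⟩ := hroot
    obtain ⟨s, t, hst⟩ := List.append_of_mem hq'
    by_contra h0
    have h1 : m = 0 := by omega
    subst h1
    refine hcr q' t ?_ ⟨∅, rfl, fun a c _ c' _ h => absurd h (notMem_empty c), fun c h =>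
      absurd h (notMem_empty c)⟩
    exact ⟨s, hst.symm⟩
  obtain ⟨t, ht, hw⟩ := wins_of_live P z v₀ (m * d ^ 2) l hroot (by
    intro l' hl'
    rcases l' with _ | ⟨q', l'⟩
    · have h1 : lives P z ([] : List P.State) = ∅ := by
        rw [eq_empty_iff_forall_notMem]
        intro c hc
        rw [mem_lives] at hc
        exact hc.elim
      rw [h1, card_empty]
      have h2 : 1 ≤ d ^ 2 := Nat.one_le_pow _ _ hd1
      nlinarith
    · exact card_lives P z _ m d hd (hcr q' l' hl') hd1)
  rw [hempty] at hw
  exact ⟨t, ht, hw⟩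

end Dag

end Pool.Agent.W997.SR
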