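import Pool.Agent.W997.SR.Grid
import Pool.Agent.W997.DB.Circuit

/-!
# Boolean circuits for grid evaluation
-/

set_option autoImplicit false

namespace Pool.Agent.W997.SR

open Finset
open Pool.Agent.W997.TS (bit)
open Pool.Agent.W997.DB (Op Circuit bits ent)

variable {h l : ℕ}

/-- The nodes which are not on the boundary. -/
def Inner (v : Node h) : Prop := v.1.val < h ∧ v.2.val < h

instance (v : Node h) : Decidable (Inner v) := inferInstanceAs (Decidable (_ ∧ _))

/-- The rank of a node. -/
def rank (v : Node h) : ℕ := if Inner v then (h - v.1.val) + (h - v.2.val) else 0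

/-- A child of a node. -/
def chd (v : Node h) (s : Fin 2) : Node h :=
  if s = 0 then nd (v.1.val + 1) v.2.val else nd v.1.val (v.2.val + 1)

theorem rank_pos (v : Node h) (hv : Inner v) : 0 < rank v := by
  unfold rank
  rw [if_pos hv]
  unfold Inner at hv
  omega

theorem rank_chd (v : Node h) (hv : Inner v) (s : Fin 2) : rank (chd v s) + 1 ≤ rank v := by
  have h1 : rank v = (h - v.1.val) + (h - v.2.val) := if_pos hv
  have h2 : rank (chd v s) ≤ (h - (chd v s).1.val) + (h - (chd v s).2.val) := by
    unfold rank
    split_ifs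
    · exact le_rfl
    · omega
  have h3 : (h - (chd v s).1.val) + (h - (chd v s).2.val) + 1 ≤
      (h - v.1.val) + (h - v.2.val) := by
    unfold Inner at hv
    unfold chd
    split_ifs
    · simp only [nd]; omega
    · simp only [nd]; omega
  omega

/-- The entry of the table of a node with given bits. -/
def entV (v : Node h) (w : Fin (2 * l) → Bool) : Var h (2 ^ l) :=
  (v, if Inner v then ent w 0 + ent w 1 else 0)

/-- The bits of the values of the children. -/
def tru (x : Input h (2 ^ l)) (v : Node h) : Fin (2 * l) → Bool := fun q =>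
  (value x (chd v (finProdFinEquiv.symm q).1)).val.testBit (finProdFinEquiv.symm q).2.val

theorem ent_tru (x : Input h (2 ^ l)) (v : Node h) (s : Fin 2) :
    ent (tru x v) s = value x (chd v s) := by
  apply Fin.ext
  simp only [ent, tru, Equiv.symm_apply_apply]
  rw [Nat.ofBits_testBit, Nat.mod_eq_of_lt (Fin.is_lt _)]

theorem val_tru (x : Input h (2 ^ l)) (v : Node h) : x (entV v (tru x v)) = value x v := by
  unfold entV
  by_cases hv : Inner v
  · rw [if_pos hv, ent_tru, ent_tru]
    have hv' : v.1.val < h ∧ v.2.val < h := hv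
    have h3 : value x v = x (v,
        value x (nd (v.1.val + 1) v.2.val) + value x (nd v.1.val (v.2.val + 1))) := by
      rw [value, dif_pos hv']
    rw [h3]
    rfl
  · rw [if_neg hv]
    have hv' : ¬ (v.1.val < h ∧ v.2.val < h) := hv
    have h3 : value x v = x (v, 0) := by
      rw [value, dif_neg hv']
    rw [h3]

/-- The first `m` bits are taken from `w`, the other ones are the true ones. -/
def mix (x : Input h (2 ^ l)) (v : Node h) (m : ℕ)
    (w : Fin (2 * l) → Bool) : Fin (2 * l) → Bool := fun q =>
  if q.val < m then w q else tru x v q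

/-- The bit `c` of the entry with partly given bits. -/
def sel (x : Input h (2 ^ l)) (v : Node h) (c : Fin l) (m : ℕ)
    (w : Fin (2 * l) → Bool) : Bool :=
  (x (entV v (mix x v m w))).val.testBit c.val

theorem sel_zero (x : Input h (2 ^ l)) (v : Node h) (c : Fin l)
    (w : Fin (2 * l) → Bool) : sel x v c 0 w = (value x v).val.testBit c.val := by
  unfold sel
  have : mix x v 0 w = tru x v := by
    funext q
    simp [mix]
  rw [this, val_tru x v]

theorem sel_top (x : Input h (2 ^ l)) (v : Node h) (c : Fin l)
    (m : ℕ) (w : Fin (2 * l) → Bool) (hm : ¬ Inner v ∨ ¬ m < 2 * l) :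
    sel x v c m w = (x (entV v w)).val.testBit c.val := by
  unfold sel
  rcases hm with hm | hm
  · unfold entV
    rw [if_neg hm, if_neg hm]
  · have : mix x v m w = w := by
      funext q
      unfold mix
      rw [if_pos]
      have := q.2
      omega
    rw [this]

theorem sel_succ (x : Input h (2 ^ l)) (v : Node h) (c : Fin l)
    (m : ℕ) (hm : m < 2 * l) (w : Fin (2 * l) → Bool) (b : Bool) (hb : tru x v ⟨m, hm⟩ = b) :
    sel x v c (m + 1) (Function.update w ⟨m, hm⟩ b) = sel x v c m w := by
  unfold sel
  congr 4
  funext q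
  unfold mix
  by_cases h1 : q = ⟨m, hm⟩
  · subst h1
    rw [if_pos (by simp only; omega), if_neg (by simp only; omega), Function.update_self, hb]
  · have h2 : q.val ≠ m := fun h3 => h1 (Fin.ext h3)
    rw [Function.update_of_ne h1]
    by_cases h3 : q.val < m
    · rw [if_pos (by omega), if_pos h3]
    · rw [if_neg (by omega), if_neg h3]

/-- The gates. -/
abbrev EGate (h l : ℕ) : Type :=
  Node h × Fin l × Fin (2 * l + 1) × (Fin (2 * l) → Bool) × Fin 4

/-- The gate for a bit of the value of a node. -/
def valG (v : Node h) (c : Fin l) (κ : Fin 4) : EGate h l :=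
  (v, c, 0, fun _ => false, κ)

/-- The labels of the gates. -/
def eop (g : EGate h l) : Op (Var h (2 ^ l) × Fin l) (EGate h l) :=
  if g.2.2.2.2 = 3 then Op.not (valG g.1 g.2.1 0)
  else if hm : ¬ Inner g.1 ∨ ¬ g.2.2.1.val < 2 * l then
    Op.lit (entV g.1 g.2.2.2.1, g.2.1)
  else if g.2.2.2.2 = 0 then
    Op.or (g.1, g.2.1, g.2.2.1, g.2.2.2.1, 1) (g.1, g.2.1, g.2.2.1, g.2.2.2.1, 2)
  else if g.2.2.2.2 = 1 then
    Op.and
      (valG (chd g.1 (finProdFinEquiv.symm (⟨g.2.2.1.val, by omega⟩ : Fin (2 * l))).1)
        (finProdFinEquiv.symm (⟨g.2.2.1.val, by omega⟩ : Fin (2 * l))).2 3)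
      (g.1, g.2.1, ⟨g.2.2.1.val + 1, by omega⟩,
        Function.update g.2.2.2.1 ⟨g.2.2.1.val, by omega⟩ false, 0)
  else
    Op.and
      (valG (chd g.1 (finProdFinEquiv.symm (⟨g.2.2.1.val, by omega⟩ : Fin (2 * l))).1)
        (finProdFinEquiv.symm (⟨g.2.2.1.val, by omega⟩ : Fin (2 * l))).2 0)
      (g.1, g.2.1, ⟨g.2.2.1.val + 1, by omega⟩,
        Function.update g.2.2.2.1 ⟨g.2.2.1.val, by omega⟩ true, 0)

/-- The levels of the gates. -/
def elev (g : EGate h l) : ℕ :=
  if g.2.2.2.2 = 3 then rank g.1 * (2 * (2 * l) + 1) + 1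
  else if ¬ Inner g.1 then 0
  else if g.2.2.2.2 = 0 then
    (rank g.1 - 1) * (2 * (2 * l) + 1) + 1 + 2 * (2 * l - g.2.2.1.val)
  else (rank g.1 - 1) * (2 * (2 * l) + 1) + 2 * (2 * l - g.2.2.1.val)

theorem elev_valG (v : Node h) (c : Fin l) :
    elev (valG v c 0) = rank v * (2 * (2 * l) + 1) := by
  unfold elev valG
  simp only [Fin.isValue, Fin.reduceEq, if_false, if_true, Fin.coe_ofNat_eq_mod, Nat.zero_mod,
    Nat.sub_zero]
  split_ifs with h1
  · have h2 := rank_pos v h1
    obtain ⟨j, hj⟩ : ∃ j, rank v = j + 1 := ⟨rank v - 1, by omega⟩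
    rw [hj, Nat.add_sub_cancel]
    ring
  · have h2 : rank v = 0 := if_neg h1
    rw [h2, zero_mul]

theorem elev_valG3 (v : Node h) (c : Fin l) :
    elev (valG v c 3) = rank v * (2 * (2 * l) + 1) + 1 := by
  unfold elev valG
  simp

theorem eop_lt (g : EGate h l) : ∀ a ∈ (eop g).args, elev a < elev g := by
  obtain ⟨v, c, m, w, κ⟩ := g
  intro a ha
  unfold eop at ha
  simp only at ha
  by_cases h3 : κ = 3
  · rw [if_pos h3] at ha
    simp only [Op.args, List.mem_singleton] at ha
    subst ha
    rw [elev_valG]
    unfold elev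
    simp only
    rw [if_pos h3]
    omega
  · rw [if_neg h3] at ha
    by_cases hm : ¬ Inner v ∨ ¬ m.val < 2 * l
    · rw [dif_pos hm] at ha
      simp [Op.args] at ha
    · rw [dif_neg hm] at ha
      push Not at hm
      obtain ⟨hj, hm⟩ := hm
      have hchd : ∀ s, rank (chd v s) * (2 * (2 * l) + 1) ≤
          (rank v - 1) * (2 * (2 * l) + 1) := by
        intro s
        apply Nat.mul_le_mul_right
        have := rank_chd v hj s
        omega
      by_cases h0 : κ = 0
      · rw [if_pos h0] at ha
        subst h0
        simp only [Op.args, List.mem_cons, List.not_mem_nil, or_false] at ha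
        have e1 : elev ((v, c, m, w, 0) : EGate h l) =
            (rank v - 1) * (2 * (2 * l) + 1) + 1 + 2 * (2 * l - m.val) := by
          unfold elev
          simp only [Fin.isValue, Fin.reduceEq, if_false, if_true, if_neg (not_not.2 hj)]
        rcases ha with rfl | rfl
        · rw [e1]
          unfold elev
          simp only [Fin.isValue, Fin.reduceEq, if_false, if_neg (not_not.2 hj), Fin.reduceEq]
          simp
        · rw [e1]
          unfold elev
          simp only [Fin.isValue, Fin.reduceEq, if_false, if_neg (not_not.2 hj), Fin.reduceEq]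
          simp
      · rw [if_neg h0] at ha
        have e1 : elev ((v, c, m, w, κ) : EGate h l) =
            (rank v - 1) * (2 * (2 * l) + 1) + 2 * (2 * l - m.val) := by
          unfold elev
          simp only
          rw [if_neg h3, if_neg (not_not.2 hj), if_neg h0]
        have e2 : ∀ w' : Fin (2 * l) → Bool,
            elev ((v, c, ⟨m.val + 1, by omega⟩, w', 0) : EGate h l) <
            (rank v - 1) * (2 * (2 * l) + 1) + 2 * (2 * l - m.val) := by
          intro w'
          unfold elev
          simp only [Fin.isValue, Fin.reduceEq, if_false, if_true, if_neg (not_not.2 hj)]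
          omega
        rw [e1]
        by_cases h1 : κ = 1
        · rw [if_pos h1] at ha
          simp only [Op.args, List.mem_cons, List.not_mem_nil, or_false] at ha
          rcases ha with rfl | rfl
          · rw [elev_valG3]
            have := hchd (finProdFinEquiv.symm (⟨m.val, by omega⟩ : Fin (2 * l))).1
            omega
          · exact e2 _
        · rw [if_neg h1] at ha
          simp only [Op.args, List.mem_cons, List.not_mem_nil, or_false] at ha
          rcases ha with rfl | rfl
          · rw [elev_valG]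
            have := hchd (finProdFinEquiv.symm (⟨m.val, by omega⟩ : Fin (2 * l))).1
            omega
          · exact e2 _

/-- The values of the gates. -/
def eval (x : Input h (2 ^ l)) (g : EGate h l) : Bool :=
  if g.2.2.2.2 = 3 then !(value x g.1).val.testBit g.2.1.val
  else if hm : ¬ Inner g.1 ∨ ¬ g.2.2.1.val < 2 * l then sel x g.1 g.2.1 g.2.2.1.val g.2.2.2.1
  else if g.2.2.2.2 = 0 then sel x g.1 g.2.1 g.2.2.1.val g.2.2.2.1
  else if g.2.2.2.2 = 1 then
    (!tru x g.1 ⟨g.2.2.1.val, by omega⟩ && sel x g.1 g.2.1 (g.2.2.1.val + 1)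
      (Function.update g.2.2.2.1 ⟨g.2.2.1.val, by omega⟩ false))
  else
    (tru x g.1 ⟨g.2.2.1.val, by omega⟩ && sel x g.1 g.2.1 (g.2.2.1.val + 1)
      (Function.update g.2.2.2.1 ⟨g.2.2.1.val, by omega⟩ true))

theorem eval_zero (x : Input h (2 ^ l)) (v : Node h) (c : Fin l)
    (m : Fin (2 * l + 1)) (w : Fin (2 * l) → Bool) :
    eval x ((v, c, m, w, 0) : EGate h l) = sel x v c m.val w := by
  unfold eval
  simp only [Fin.isValue, Fin.reduceEq, if_false, if_true, dite_eq_ite, ite_self]

theorem eval_valG (x : Input h (2 ^ l)) (v : Node h) (c : Fin l) :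
    eval x (valG v c 0) = (value x v).val.testBit c.val := by
  unfold valG
  rw [eval_zero]
  exact sel_zero x v c _

theorem eval_valG3 (x : Input h (2 ^ l)) (v : Node h) (c : Fin l) :
    eval x (valG v c 3) = !(value x v).val.testBit c.val := by
  unfold valG eval
  simp only [Fin.isValue, if_true]

theorem eval_eop (x : Input h (2 ^ l)) (g : EGate h l) :
    eval x g = (eop g).eval (bits x) (eval x) := by
  obtain ⟨v, c, m, w, κ⟩ := g
  unfold eop
  simp only
  by_cases h3 : κ = 3
  · rw [if_pos h3]
    subst h3
    simp only [Op.eval]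
    rw [eval_valG]
    unfold eval
    simp only [Fin.isValue, if_true]
  · rw [if_neg h3]
    by_cases hm : ¬ Inner v ∨ ¬ m.val < 2 * l
    · rw [dif_pos hm]
      simp only [Op.eval, bits]
      rw [← sel_top x v c m.val w hm]
      unfold eval
      simp only
      rw [if_neg h3, dif_pos hm]
    · rw [dif_neg hm]
      have hm' := hm
      push Not at hm'
      obtain ⟨hj, hml⟩ := hm'
      have e1 : eval x ((v, c, m, w, 1) : EGate h l) =
          (!tru x v ⟨m.val, hml⟩ && sel x v c (m.val + 1)
            (Function.update w ⟨m.val, hml⟩ false)) := by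
        unfold eval
        simp only [Fin.isValue, Fin.reduceEq, if_false, if_true, dif_neg hm]
      have e2 : eval x ((v, c, m, w, 2) : EGate h l) =
          (tru x v ⟨m.val, hml⟩ && sel x v c (m.val + 1)
            (Function.update w ⟨m.val, hml⟩ true)) := by
        unfold eval
        simp only [Fin.isValue, Fin.reduceEq, if_false, dif_neg hm]
      by_cases h0 : κ = 0
      · rw [if_pos h0]
        subst h0
        simp only [Op.eval]
        rw [eval_zero, e1, e2]
        cases htr : tru x v ⟨m.val, hml⟩ with
        | false =>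
          rw [sel_succ x v c m.val hml w false htr]
          simp
        | true =>
          rw [sel_succ x v c m.val hml w true htr]
          simp
      · rw [if_neg h0]
        by_cases h1 : κ = 1
        · rw [if_pos h1]
          subst h1
          simp only [Op.eval]
          rw [e1, eval_valG3, eval_zero]
          rfl
        · rw [if_neg h1]
          have h2 : κ = 2 := by
            have := κ.2
            apply Fin.ext
            have a0 : κ.val ≠ 0 := fun h => h0 (Fin.ext h)
            have a1 : κ.val ≠ 1 := fun h => h1 (Fin.ext h)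
            have a3 : κ.val ≠ 3 := fun h => h3 (Fin.ext h)
            simp only [Fin.isValue, Fin.coe_ofNat_eq_mod, Nat.reduceMod]
            omega
          subst h2
          simp only [Op.eval]
          rw [e2, eval_valG, eval_zero]
          rfl

/-- The circuit which computes the lowest bit of the value of the corner. -/
def circ (h l : ℕ) (hl : 0 < l) : Circuit (Var h (2 ^ l) × Fin l) where
  Gate := EGate h l
  op := eop
  level := elev
  level_lt := eop_lt
  out := valG (nd 0 0) ⟨0, hl⟩ 3

theorem circ_size (hl : 0 < l) :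
    (circ h l hl).size = (h + 1) ^ 2 * (l * ((2 * l + 1) * (2 ^ (2 * l) * 4))) := by
  unfold Circuit.size
  change Fintype.card (EGate h l) = _
  simp only [Fintype.card_prod, Fintype.card_fun, Fintype.card_fin, Fintype.card_bool]
  ring

theorem circ_depth (hl : 0 < l) :
    (circ h l hl).depth ≤ 2 * h * (4 * l + 1) + 1 := by
  unfold Circuit.depth
  apply Finset.sup_le
  intro g _
  change elev g ≤ _
  obtain ⟨v, c, m, w, κ⟩ := g
  have hr : rank v ≤ 2 * h := by
    unfold rank
    split_ifs <;> omega
  have h1 : rank v * (2 * (2 * l) + 1) ≤ 2 * h * (2 * (2 * l) + 1) := Nat.mul_le_mul_right _ hr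
  have h4l : 2 * (2 * l) + 1 = 4 * l + 1 := by ring
  rw [h4l] at h1
  have h2 : Inner v → (rank v - 1) * (4 * l + 1) + (4 * l + 1) = rank v * (4 * l + 1) := by
    intro h3
    have := rank_pos v h3
    obtain ⟨j', hj'⟩ : ∃ j', rank v = j' + 1 := ⟨rank v - 1, by omega⟩
    rw [hj', Nat.add_sub_cancel]
    ring
  unfold elev
  simp only
  rw [h4l]
  split_ifs with h3 h4 h5
  · omega
  · have := h2 h4
    omega
  · have := h2 h4
    omega
  · omega

theorem circ_outputs (hl : 0 < l) (x : Input h (2 ^ l)) :
    (circ h l hl).Outputs (bits x) (bit (corner x)) := by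
  refine ⟨eval x, eval_eop x, ?_⟩
  change eval x (valG (nd 0 0) ⟨0, hl⟩ 3) = _
  rw [eval_valG3]
  change (!(corner x).val.testBit 0) = _
  unfold bit
  rw [Nat.testBit_zero]
  have := Nat.mod_two_eq_zero_or_one (corner x).val
  rcases this with h1 | h1 <;> simp [h1]

end Pool.Agent.W997.SR
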