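import Pool.Agent.W997.SR.Rand
import Pool.Agent.W997.DB.Main

/-!
# Programs which read few variables
-/

set_option autoImplicit false

namespace Pool.Agent.W997.SR

open Finset
open Pool.Agent.W997.TS (DBP flip flip_flip flip_val bit path_unique path_congr)
open Pool.Agent.W997.DB (bit_flip half)

variable {V Γ : Type} {k : ℕ} [Fintype Γ] [DecidableEq Γ] [DecidableEq V] (Y : Net V Γ k)

namespace Net

/-- The computation `l` evaluates the root, knows nothing at the start, and never has `m`
independent live nodes. -/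
def Good (P : DBP V k) (m : ℕ) (v0 : Γ) (z : Γ → Fin k) (l : List P.State) : Prop :=
  (∃ q' ∈ l, P.query q' = Y.pos z v0) ∧ ¬ Y.Crowded P z 1 l ∧
    ∀ q' l', q' :: l' <:+ l → ¬ Y.Crowded P z m (q' :: l')

/-- **The law.** -/
theorem law_card [Fintype V] (m t : ℕ) (γ : ℝ) (hk : Even k) (hk1 : 1 ≤ k) (P : DBP V k)
    (v0 : Γ) (htop : ∀ v, v0 ∉ Y.kid v) (val : (V → Fin k) → Γ → Fin k)
    (hval : ∀ x v, val x v = x (Y.pos (val x) v))
    (hno : ∀ z l, ¬ Y.Good P m v0 z l)
    (T M : (V → Fin k) → ℕ) (R : (V → Fin k) → Bool)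
    (hrun : ∀ x, P.Run x (T x) (M x) (R x))
    (hfail : ((Fintype.card Γ * t : ℕ) / (k : ℝ)) + P.size *
      ((Fintype.card Γ * t : ℕ) / (k : ℝ)) ^ m ≤ γ)
    (hag : (1 / 2 + γ) * Fintype.card (V → Fin k) ≤
      (univ.filter (fun x => R x = bit (val x v0))).card) :
    γ * Fintype.card (V → Fin k) ≤ (univ.filter (fun x => t < M x)).card := by
  classical
  choose L hLR hLT hLM using hrun
  set I := Fintype.card (V → Fin k) with hI
  -- the inputs for which the root is not evaluated
  set E := univ.filter (fun x : V → Fin k =>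
    ∀ q' ∈ P.start :: L x, P.query q' ≠ Y.pos (val x) v0) with hE
  set φ : (V → Fin k) → (V → Fin k) := fun x =>
    Function.update x (Y.pos (val x) v0) (flip hk (x (Y.pos (val x) v0))) with hφ
  have hφval : ∀ x, val (φ x) = Function.update (val x) v0 (flip hk (x (Y.pos (val x) v0))) :=
    fun x => (Y.val_update val v0 htop x _ hval).1
  have hφpos : ∀ x, Y.pos (val (φ x)) v0 = Y.pos (val x) v0 := by
    intro x
    rw [hφval x]
    exact (Y.val_update val v0 htop x _ hval).2
  have hφpath : ∀ x ∈ E, L (φ x) = L x ∧ R (φ x) = R x := by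
    intro x hx
    have h1 : P.IsPath (φ x) P.start (L x) (R x) := by
      refine path_congr P (L x) P.start ?_ (hLR x)
      intro q' hq'
      rw [hφ]
      simp only
      rw [Function.update_of_ne ((mem_filter.1 hx).2 q' hq')]
    exact path_unique P _ _ _ (hLR _) h1
  have hhalf : 2 * (E.filter (fun x => R x = bit (val x v0))).card ≤ E.card := by
    refine half E R (fun x => bit (val x v0)) φ ?_ ?_ (fun x hx => (hφpath x hx).2) ?_
    · intro x hx
      rw [hE, mem_filter]
      refine ⟨mem_univ _, ?_⟩
      rw [(hφpath x hx).1, hφpos]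
      exact (mem_filter.1 hx).2
    · intro x _
      change Function.update (φ x) (Y.pos (val (φ x)) v0)
        (flip hk (φ x (Y.pos (val (φ x)) v0))) = x
      rw [hφpos]
      have h1 : φ x (Y.pos (val x) v0) = flip hk (x (Y.pos (val x) v0)) := by
        rw [hφ]
        simp only [Function.update_self]
      rw [h1, Pool.Agent.W997.TS.flip_flip]
      change Function.update (Function.update x (Y.pos (val x) v0) _) (Y.pos (val x) v0)
        (x (Y.pos (val x) v0)) = x
      rw [Function.update_idem, Function.update_eq_self]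
    · intro x _
      rw [hφval, Function.update_self, bit_flip, hval x v0]
  -- the bad inputs
  set B := univ.filter (fun x : V → Fin k =>
    (asked P (P.start :: L x)).card ≤ t ∧
      (Y.Crowded P (val x) 1 (P.start :: L x) ∨
        ∃ q' l', q' :: l' <:+ P.start :: L x ∧ Y.Crowded P (val x) m (q' :: l'))) with hB
  have hBb : (B.card : ℝ) ≤ γ * I := by
    refine (Y.random_bound P val hval t m hk1 L R hLR B
      (fun x hx => (mem_filter.1 hx).2)).trans ?_
    exact mul_le_mul_of_nonneg_right hfail (by positivity)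
  have hcov : I ≤ E.card + B.card + (univ.filter (fun x => t < M x)).card := by
    rw [hI, ← card_univ]
    refine (card_le_card (?_ : (univ : Finset (V → Fin k)) ⊆ (E ∪ B) ∪
      univ.filter (fun x => t < M x))).trans
      ((card_union_le _ _).trans (Nat.add_le_add_right (card_union_le _ _) _))
    intro x _
    by_cases h1 : x ∈ E
    · exact mem_union_left _ (mem_union_left _ h1)
    by_cases h2 : x ∈ B
    · exact mem_union_left _ (mem_union_right _ h2)
    apply mem_union_right
    by_cases h3 : (asked P (P.start :: L x)).card ≤ t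
    · exfalso
      rw [hB, mem_filter] at h2
      push Not at h2
      obtain ⟨h4, h5⟩ := h2 (mem_univ _) h3
      refine hno (val x) (P.start :: L x) ⟨?_, h4, h5⟩
      rw [hE, mem_filter] at h1
      push Not at h1
      exact h1 (mem_univ _)
    · rw [mem_filter]
      refine ⟨mem_univ _, ?_⟩
      push Not at h3
      rw [← hLM x]
      exact h3
  have hcorr : (univ.filter (fun x => R x = bit (val x v0))).card ≤
      (E.filter (fun x => R x = bit (val x v0))).card + (I - E.card) := by
    have h1 : univ.filter (fun x => R x = bit (val x v0)) ⊆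
        E.filter (fun x => R x = bit (val x v0)) ∪ Eᶜ := by
      intro x hx
      by_cases h2 : x ∈ E
      · exact mem_union_left _ (mem_filter.2 ⟨h2, (mem_filter.1 hx).2⟩)
      · exact mem_union_right _ (mem_compl.2 h2)
    refine (card_le_card h1).trans ((card_union_le _ _).trans ?_)
    rw [card_compl]
  have hEI : E.card ≤ I := by
    rw [hI, ← card_univ]
    exact card_le_univ E
  have h1 : (univ.filter (fun x => R x = bit (val x v0))).card * 2 + E.card ≤ 2 * I := by omega
  have h2 : ((univ.filter (fun x => R x = bit (val x v0))).card : ℝ) * 2 + E.card ≤ 2 * I := by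
    exact_mod_cast h1
  have h3 : (E.card : ℝ) ≤ (1 - 2 * γ) * I := by linarith
  have h4 : (I : ℝ) ≤ E.card + B.card + (univ.filter (fun x => t < M x)).card := by
    exact_mod_cast hcov
  linarith

/-- The law for the average number of variables. -/
theorem law_avg [Fintype V] (m t : ℕ) (γ : ℝ) (hk : Even k) (hk1 : 1 ≤ k) (P : DBP V k)
    (v0 : Γ) (htop : ∀ v, v0 ∉ Y.kid v) (val : (V → Fin k) → Γ → Fin k)
    (hval : ∀ x v, val x v = x (Y.pos (val x) v))
    (hno : ∀ z l, ¬ Y.Good P m v0 z l)
    (T M : (V → Fin k) → ℕ) (R : (V → Fin k) → Bool)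
    (hrun : ∀ x, P.Run x (T x) (M x) (R x))
    (hfail : ((Fintype.card Γ * t : ℕ) / (k : ℝ)) + P.size *
      ((Fintype.card Γ * t : ℕ) / (k : ℝ)) ^ m ≤ γ)
    (hag : (1 / 2 + γ) * Fintype.card (V → Fin k) ≤
      (univ.filter (fun x => R x = bit (val x v0))).card) :
    γ * (t + 1) * Fintype.card (V → Fin k) ≤ ∑ x, (M x : ℝ) := by
  classical
  have h2 := Y.law_card m t γ hk hk1 P v0 htop val hval hno T M R hrun hfail hag
  set I : ℝ := (Fintype.card (V → Fin k) : ℝ) with hI
  have h3 : (univ.filter (fun x => t < M x)).card * (t + 1) ≤ ∑ x, M x := by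
    calc (univ.filter (fun x => t < M x)).card * (t + 1)
        = ∑ _x ∈ univ.filter (fun x => t < M x), (t + 1) := by rw [sum_const, smul_eq_mul]
      _ ≤ ∑ x ∈ univ.filter (fun x => t < M x), M x := by
          apply sum_le_sum
          intro x hx
          exact (mem_filter.1 hx).2
      _ ≤ ∑ x, M x := sum_le_sum_of_subset (filter_subset _ _)
  have h4 : (((univ.filter (fun x => t < M x)).card * (t + 1) : ℕ) : ℝ) ≤
      ((∑ x, M x : ℕ) : ℝ) := by exact_mod_cast h3
  push_cast at h4
  calc γ * (t + 1) * I = γ * I * (t + 1) := by ring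
    _ ≤ (univ.filter (fun x => t < M x)).card * (t + 1) :=
        mul_le_mul_of_nonneg_right h2 (by positivity)
    _ ≤ _ := h4

end Net

end Pool.Agent.W997.SR
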