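import Pool.Agent.W997.TS.Defs

/-!
# Grid evaluation
-/

set_option autoImplicit false

namespace Pool.Agent.W997.SR

/-- The nodes of the grid: the pairs `(i, j)` with `i, j ≤ h`. -/
abbrev Node (h : ℕ) : Type := Fin (h + 1) × Fin (h + 1)

/-- The node `(i, j)` (with coordinates larger than `h` replaced by `h`). -/
def nd {h : ℕ} (i j : ℕ) : Node h := (⟨min i h, by omega⟩, ⟨min j h, by omega⟩)

/-- The variables: every node has a table with `k` entries. -/
abbrev Var (h k : ℕ) : Type := Node h × Fin k

/-- An input assigns a letter to every entry of every table. -/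
abbrev Input (h k : ℕ) : Type := Var h k → Fin k

/-- The value of a node: for `i, j < h` the value of `(i, j)` is the entry of its table which
belongs to the sum (modulo `k`) of the values of `(i + 1, j)` and `(i, j + 1)`; for a node on the
boundary (`i = h` or `j = h`) it is the entry `0` of its table. -/
def value {h k : ℕ} [NeZero k] (x : Input h k) (v : Node h) : Fin k :=
  if _ : v.1.val < h ∧ v.2.val < h then
    x (v, value x (nd (v.1.val + 1) v.2.val) + value x (nd v.1.val (v.2.val + 1)))
  else x (v, 0)
termination_by (h - v.1.val) + (h - v.2.val)
decreasing_by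
  all_goals
    simp only [nd]
    omega

/-- The value of the corner `(0, 0)`. -/
def corner {h k : ℕ} [NeZero k] (x : Input h k) : Fin k := value x (nd 0 0)

end Pool.Agent.W997.SR
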