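import Pool.Agent.W997.SR.Prog
import Pool.Agent.W997.SR.Core

/-!
# The space-reads curve for grid evaluation
-/

set_option autoImplicit false

namespace Pool.Agent.W997.SR

open Finset
open Pool.Agent.W997.TS (DBP bit)

/-- The numerical estimate. -/
theorem numerics (h : ℕ) (hh : 4 ≤ h) (r S : ℝ) (hr : 2 * ((h : ℝ) + 1) ^ 4 ≤ r)
    (hS : S ^ 8 ≤ r ^ h) (ρ : ℝ) (hρ0 : 0 ≤ ρ) (hρ : ρ ≤ ((h : ℝ) + 1) ^ 2 / r) :
    ρ + S * ρ ^ ((h + 1) / 2) ≤ 1 / ((h : ℝ) + 1) := by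
  set a : ℝ := (h : ℝ) + 1 with ha
  have ha5 : 5 ≤ a := by
    have : (4 : ℝ) ≤ h := by exact_mod_cast hh
    linarith
  have ha0 : 0 < a := by linarith
  have hr0 : 0 < r := lt_of_lt_of_le (by positivity) hr
  have hr1 : 1 ≤ r := by
    have h1 : (1 : ℝ) ≤ a ^ 4 := one_le_pow₀ (by linarith)
    linarith
  -- the first summand
  have h1 : ρ ≤ 1 / (2 * a) := by
    refine hρ.trans ?_
    rw [div_le_div_iff₀ hr0 (by positivity)]
    have h2 : a ^ 3 ≤ a ^ 4 := pow_le_pow_right₀ (by linarith) (by norm_num)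
    nlinarith
  -- the square
  have h2 : ρ ^ 2 ≤ 1 / (2 * r) := by
    have h3 : ρ ^ 2 ≤ (a ^ 2 / r) ^ 2 := pow_le_pow_left₀ hρ0 hρ 2
    refine h3.trans ?_
    rw [div_pow, div_le_div_iff₀ (by positivity) (by positivity)]
    nlinarith
  have h3 : S * ρ ^ ((h + 1) / 2) ≤ 1 / (2 * a) := by
    refine le_of_pow_le_pow_left₀ (n := 8) (by norm_num) (by positivity) ?_
    have h4 : (ρ ^ ((h + 1) / 2)) ^ 8 = (ρ ^ 2) ^ (4 * ((h + 1) / 2)) := by
      rw [← pow_mul, ← pow_mul]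
      congr 1
      ring
    have h5 : (ρ ^ 2) ^ (4 * ((h + 1) / 2)) ≤ (1 / (2 * r)) ^ (2 * h) := by
      have h6 : 1 / (2 * r) ≤ 1 := by
        rw [div_le_one (by positivity)]
        linarith
      calc (ρ ^ 2) ^ (4 * ((h + 1) / 2)) ≤ (1 / (2 * r)) ^ (4 * ((h + 1) / 2)) :=
            pow_le_pow_left₀ (by positivity) h2 _
        _ ≤ (1 / (2 * r)) ^ (2 * h) :=
            pow_le_pow_of_le_one (by positivity) h6 (by omega)
    have h7 : r ^ h * (1 / (2 * r)) ^ (2 * h) = (1 / (4 * r)) ^ h := by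
      rw [pow_mul, ← mul_pow]
      congr 1
      field_simp
      norm_num
    have h8 : 1 / (4 * r) ≤ 1 / (8 * a ^ 4) := by
      rw [div_le_div_iff₀ (by positivity) (by positivity)]
      linarith
    have h9 : 1 / (4 * r) ≤ 1 := by
      rw [div_le_one (by positivity)]
      linarith
    calc (S * ρ ^ ((h + 1) / 2)) ^ 8 = S ^ 8 * (ρ ^ 2) ^ (4 * ((h + 1) / 2)) := by
          rw [mul_pow, h4]
      _ ≤ r ^ h * (1 / (2 * r)) ^ (2 * h) :=
          mul_le_mul hS h5 (by positivity) (by positivity)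
      _ = (1 / (4 * r)) ^ h := h7
      _ ≤ (1 / (4 * r)) ^ 4 := pow_le_pow_of_le_one (by positivity) h9 hh
      _ ≤ (1 / (8 * a ^ 4)) ^ 4 := pow_le_pow_left₀ (by positivity) h8 4
      _ ≤ (1 / (2 * a)) ^ 8 := by
          rw [div_pow, div_pow, one_pow, one_pow, div_le_div_iff₀ (by positivity) (by positivity)]
          have h10 : a ^ 8 ≤ a ^ 16 := pow_le_pow_right₀ (by linarith) (by norm_num)
          have h11 : 0 ≤ a ^ 8 := by positivity
          calc 1 * (2 * a) ^ 8 = 256 * a ^ 8 := by ring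
            _ ≤ 4096 * a ^ 16 := by linarith
            _ = 1 * (8 * a ^ 4) ^ 4 := by ring
  have h4 : 1 / (2 * a) + 1 / (2 * a) = 1 / a := by
    field_simp
    norm_num
  linarith

/-- **The space-reads curve, lower bound.** -/
theorem curve (h k : ℕ) [NeZero k] (hh : 4 ≤ h) (hk : Even k) (r : ℝ)
    (hr : 2 * ((h : ℝ) + 1) ^ 4 ≤ r)
    (P : DBP (Var h k) k) (hS : (P.size : ℝ) ^ 8 ≤ r ^ h)
    (T M : Input h k → ℕ) (R : Input h k → Bool)
    (hrun : ∀ x, P.Run x (T x) (M x) (R x))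
    (hag : (1 / 2 + 1 / ((h : ℝ) + 1)) * Fintype.card (Input h k) ≤
      (univ.filter (fun x => R x = bit (corner x))).card) :
    (Fintype.card (Var h k) : ℝ) / (r * ((h : ℝ) + 1) ^ 3) *
      Fintype.card (Input h k) ≤ ∑ x, (M x : ℝ) := by
  classical
  have ha0 : (0 : ℝ) < (h : ℝ) + 1 := by positivity
  have hr0 : 0 < r := lt_of_lt_of_le (by positivity) hr
  have hk1 : 1 ≤ k := NeZero.one_le
  have hk0 : (0 : ℝ) < (k : ℝ) := by exact_mod_cast hk1
  set t : ℕ := ⌊(k : ℝ) / r⌋₊ with ht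
  have ht1 : (t : ℝ) ≤ (k : ℝ) / r := Nat.floor_le (by positivity)
  have ht2 : (k : ℝ) / r < t + 1 := Nat.lt_floor_add_one _
  have hcard : Fintype.card (Node h) = (h + 1) ^ 2 := by
    rw [Fintype.card_prod, Fintype.card_fin]
    ring
  have hρ : ((Fintype.card (Node h) * t : ℕ) : ℝ) / (k : ℝ) ≤ ((h : ℝ) + 1) ^ 2 / r := by
    rw [hcard]
    push_cast
    rw [div_le_div_iff₀ hk0 hr0]
    have h1 : (t : ℝ) * r ≤ k := by
      rw [← le_div_iff₀ hr0]
      exact ht1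
    have h2 : (0 : ℝ) ≤ ((h : ℝ) + 1) ^ 2 := by positivity
    nlinarith
  have hfail := numerics h hh r P.size hr hS
    (((Fintype.card (Node h) * t : ℕ) : ℝ) / (k : ℝ)) (by positivity) hρ
  have hkey := (grid h k).law_avg ((h + 1) / 2) t (1 / ((h : ℝ) + 1))
    hk hk1 P (nd 0 0)
    top_notMem value (fun x v => value_eq x v)
    (fun z l => no_good P z (by omega) _ (by omega) l) T M R hrun hfail hag
  refine le_trans ?_ hkey
  apply mul_le_mul_of_nonneg_right _ (Nat.cast_nonneg _)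
  have hvar : (Fintype.card (Var h k) : ℝ) = ((h : ℝ) + 1) ^ 2 * k := by
    rw [Fintype.card_prod, hcard, Fintype.card_fin]
    push_cast
    ring
  rw [hvar]
  have h1 : ((h : ℝ) + 1) ^ 2 * k / (r * ((h : ℝ) + 1) ^ 3) = 1 / ((h : ℝ) + 1) * (k / r) := by
    field_simp
  rw [h1]
  exact mul_le_mul_of_nonneg_left ht2.le (by positivity)

end Pool.Agent.W997.SR
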