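import Pool.Agent.W997.SR.Core
import Pool.Agent.W997.SR.Defs

/-!
# Grids: every computation has at some time many live nodes
-/

set_option autoImplicit false

namespace Pool.Agent.W997.SR

open Finset
open Pool.Agent.W997.TS (DBP)

variable {h k : ℕ} [NeZero k]

theorem nd_fst {i j : ℕ} (hi : i ≤ h) : (nd (h := h) i j).1.val = i := by
  simp only [nd]; omega

theorem nd_snd {i j : ℕ} (hj : j ≤ h) : (nd (h := h) i j).2.val = j := by
  simp only [nd]; omega

/-- The grid as a network. -/
def grid (h k : ℕ) [NeZero k] : Net (Var h k) (Node h) k where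
  nodeOf := Prod.fst
  pos := fun z v => (v, if v.1.val < h ∧ v.2.val < h then
    z (nd (v.1.val + 1) v.2.val) + z (nd v.1.val (v.2.val + 1)) else 0)
  kid := fun v => if v.1.val < h ∧ v.2.val < h then
    {nd (v.1.val + 1) v.2.val, nd v.1.val (v.2.val + 1)} else ∅
  rk := fun v => (h - v.1.val) + (h - v.2.val)
  nodeOf_pos := fun _ _ => rfl
  pos_congr := by
    intro z w v hzw
    by_cases hv : v.1.val < h ∧ v.2.val < h
    · simp only [if_pos hv, Prod.mk.injEq, true_and] at hzw ⊢
      rw [hzw _ (by simp), hzw _ (by simp)]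
    · simp only [if_neg hv]
  pos_inj := by
    intro z w v c hc hzw hpos
    by_cases hv : v.1.val < h ∧ v.2.val < h
    · simp only [if_pos hv, Prod.mk.injEq, true_and, mem_insert, mem_singleton] at hc hzw hpos
      have hne : (nd (v.1.val + 1) v.2.val : Node h) ≠ nd v.1.val (v.2.val + 1) := by
        intro h1
        have h2 := congrArg (fun p => p.1.val) h1
        simp only [nd] at h2
        omega
      rcases hc with rfl | rfl
      · have h1 := hzw _ (Or.inr rfl) hne.symm
        rw [h1] at hpos
        exact add_right_cancel hpos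
      · have h1 := hzw _ (Or.inl rfl) hne
        rw [h1] at hpos
        exact add_left_cancel hpos
    · simp only [if_neg hv] at hc
      exact absurd hc (notMem_empty c)
  kid_lt := by
    intro v c hc
    by_cases hv : v.1.val < h ∧ v.2.val < h
    · simp only [if_pos hv, mem_insert, mem_singleton] at hc
      rcases hc with rfl | rfl
      · simp only [nd]; omega
      · simp only [nd]; omega
    · simp only [if_neg hv] at hc
      exact absurd hc (notMem_empty c)

theorem value_eq (x : Input h k) (v : Node h) :
    value x v = x ((grid h k).pos (value x) v) := by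
  rw [value]
  simp only [grid]
  split_ifs <;> rfl

theorem top_notMem (v : Node h) : nd 0 0 ∉ (grid h k).kid v := by
  intro hc
  simp only [grid] at hc
  split_ifs at hc with hv
  · simp only [mem_insert, mem_singleton] at hc
    rcases hc with h1 | h1
    · have h2 := congrArg (fun p => p.1.val) h1
      simp only [nd] at h2
      omega
    · have h2 := congrArg (fun p => p.2.val) h1
      simp only [nd] at h2
      omega
  · exact absurd hc (notMem_empty _)

theorem mem_kid_dn {i j : ℕ} (hi : i < h) (hj : j < h) :
    nd (i + 1) j ∈ (grid h k).kid (nd i j) := by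
  have h1 : (nd (h := h) i j).1.val = i := nd_fst hi.le
  have h2 : (nd (h := h) i j).2.val = j := nd_snd hj.le
  simp only [grid, h1, h2, hi, hj, and_self, if_true, mem_insert, true_or]

theorem mem_kid_rt {i j : ℕ} (hi : i < h) (hj : j < h) :
    nd i (j + 1) ∈ (grid h k).kid (nd i j) := by
  have h1 : (nd (h := h) i j).1.val = i := nd_fst hi.le
  have h2 : (nd (h := h) i j).2.val = j := nd_snd hj.le
  simp only [grid, h1, h2, hi, hj, and_self, if_true, mem_insert, mem_singleton, or_true]

theorem indep_of_parity (U : Finset (Node h)) (e : ℕ) (hU : ∀ c ∈ U, c.1.val % 2 = e) :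
    (grid h k).Indep U := by
  intro a c hc c' hc' h1 h2
  have e1 := hU c h1
  have e2 := hU c' h2
  simp only [grid] at hc hc'
  split_ifs at hc hc' with hv
  · simp only [mem_insert, mem_singleton] at hc hc'
    rcases hc with rfl | rfl <;> rcases hc' with rfl | rfl
    · rfl
    · simp only [nd] at e1 e2; omega
    · simp only [nd] at e1 e2; omega
    · rfl
  · exact absurd hc (notMem_empty _)

/-- The position after `t` steps in the directions `f`. -/
def at' (f : ℕ → Bool) : ℕ → ℕ × ℕ
  | 0 => (0, 0)
  | t + 1 => if f t then ((at' f t).1 + 1, (at' f t).2) else ((at' f t).1, (at' f t).2 + 1)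

theorem at_sum (f : ℕ → Bool) (t : ℕ) : (at' f t).1 + (at' f t).2 = t := by
  induction t with
  | zero => rfl
  | succ t ih =>
    rw [at']
    split_ifs
    · simp only; omega
    · simp only; omega

theorem at_congr (f g : ℕ → Bool) (t : ℕ) (hfg : ∀ s, s < t → f s = g s) : at' f t = at' g t := by
  induction t with
  | zero => rfl
  | succ t ih =>
    rw [at', at', ih (fun s hs => hfg s (by omega)), hfg t (by omega)]

theorem at_mono (f : ℕ → Bool) {s t : ℕ} (hst : s ≤ t) :
    (at' f s).1 ≤ (at' f t).1 ∧ (at' f s).2 ≤ (at' f t).2 := by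
  induction t with
  | zero =>
    have : s = 0 := by omega
    subst this
    exact ⟨le_rfl, le_rfl⟩
  | succ t ih =>
    rcases Nat.lt_or_ge t s with h1 | h1
    · have : s = t + 1 := by omega
      subst this
      exact ⟨le_rfl, le_rfl⟩
    · obtain ⟨h2, h3⟩ := ih h1
      rw [at']
      split_ifs
      · simp only; omega
      · simp only; omega

/-- The directions `f` up to time `t`, and then always `b`. -/
def dev (f : ℕ → Bool) (t : ℕ) (b : Bool) : ℕ → Bool := fun s => if s < t then f s else b

theorem at_dev (f : ℕ → Bool) (t : ℕ) (b : Bool) (s : ℕ) :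
    at' (dev f t b) (t + s) =
      if b then ((at' f t).1 + s, (at' f t).2) else ((at' f t).1, (at' f t).2 + s) := by
  induction s with
  | zero =>
    have h1 : at' (dev f t b) t = at' f t :=
      at_congr _ _ _ fun s hs => by simp [dev, hs]
    rw [Nat.add_zero, h1]
    split_ifs <;> simp
  | succ s ih =>
    rw [← Nat.add_assoc, at', ih]
    have h1 : dev f t b (t + s) = b := by simp [dev]
    rw [h1]
    cases b
    · simp [Nat.add_assoc]
    · simp [Nat.add_assoc]

variable (P : DBP (Var h k) k) (z : Node h → Fin k)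

/-- The lattice path in the directions `f` has no live node up to the boundary. -/
def FreeP (s : List P.State) (f : ℕ → Bool) : Prop :=
  ∀ t, (∀ t', t' < t → (at' f t').1 < h ∧ (at' f t').2 < h) →
    ¬ (grid h k).Live P z (nd (at' f t).1 (at' f t).2) s

theorem transition (l : List P.State) (hl : ∃ f, FreeP P z l f)
    (hl' : ∃ t, t ≠ [] ∧ t <:+ l ∧ ¬ ∃ f, FreeP P z t f) :
    ∃ (q q2 : P.State) (s : List P.State), q :: q2 :: s <:+ l ∧
      (∃ f, FreeP P z (q :: q2 :: s) f) ∧ ¬ ∃ f, FreeP P z (q2 :: s) f := by
  induction l with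
  | nil =>
    obtain ⟨t, ht0, ht, -⟩ := hl'
    rw [List.suffix_nil] at ht
    exact absurd ht ht0
  | cons q l ih =>
    by_cases hf : ∃ f, FreeP P z l f
    · obtain ⟨t, ht0, ht, htf⟩ := hl'
      have hne : t ≠ q :: l := by
        rintro rfl
        exact htf hl
      have hts : t <:+ l := by
        rcases List.suffix_cons_iff.1 ht with h1 | h1
        · exact absurd h1 hne
        · exact h1
      obtain ⟨q1, q2, s, h1, h2, h3⟩ := ih hf ⟨t, ht0, hts, htf⟩
      exact ⟨q1, q2, s, h1.trans (List.suffix_cons _ _), h2, h3⟩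
    · cases l with
      | nil =>
        exfalso
        obtain ⟨t, ht0, ht, htf⟩ := hl'
        have h1 : t = [q] := by
          rcases List.suffix_cons_iff.1 ht with h1 | h1
          · exact h1
          · rw [List.suffix_nil] at h1
            exact absurd h1 ht0
        subst h1
        exact htf hl
      | cons q2 s => exact ⟨q, q2, s, List.suffix_rfl, hl, hf⟩

/-- **Grids need many live nodes.** -/
theorem no_good (hh : 1 ≤ h) (m : ℕ) (hm : 2 * m ≤ h + 1) (l : List P.State) :
    ¬ (grid h k).Good P m (nd 0 0) z l := by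
  classical
  rintro ⟨⟨q', hq', hroot⟩, hstart, hcr⟩
  set Y := grid h k with hY
  -- no live node at the start
  have h0 : ∀ c, ¬ Y.Live P z c l := by
    intro c hc
    apply hstart
    refine ⟨{c}, card_singleton c, ?_, ?_⟩
    · intro a c1 _ c2 _ h1 h2
      rw [mem_singleton] at h1 h2
      rw [h1, h2]
    · intro c' hc'
      rw [mem_singleton] at hc'
      rw [hc']
      exact hc
  have hfree : ∃ f, FreeP P z l f := ⟨fun _ => true, fun t _ => h0 _⟩
  obtain ⟨l1, l2, hl12⟩ := List.append_of_mem hq'
  have hnf : ¬ ∃ f, FreeP P z (q' :: l2) f := by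
    rintro ⟨f, hf⟩
    refine hf 1 ?_ ?_
    · intro t' ht'
      have : t' = 0 := by omega
      subst this
      simp only [at']
      omega
    · left
      refine ⟨nd 0 0, ?_, hroot⟩
      rw [at']
      simp only [at']
      split_ifs
      · exact mem_kid_dn (by omega) (by omega)
      · exact mem_kid_rt (by omega) (by omega)
  obtain ⟨q, q2, s, hsuf, ⟨f, hf⟩, hblocked⟩ := transition P z l hfree
    ⟨q' :: l2, by simp, ⟨l1, hl12.symm⟩, hnf⟩
  -- the nodes on the path stay free, except possibly the last one
  have hinner : ∀ t, t < h → ∀ t', t' < t + 1 → (at' f t').1 < h ∧ (at' f t').2 < h := by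
    intro t ht t' ht'
    have := at_sum f t'
    omega
  have hstay : ∀ t, t < h → ¬ Y.Live P z (nd (at' f t).1 (at' f t).2) (q2 :: s) := by
    intro t ht hlive
    have h1 := hf t (fun t' ht' => hinner t ht t' (by omega))
    have h2 : P.query q = Y.pos z (nd (at' f t).1 (at' f t).2) := by
      by_contra hne
      exact h1 (Or.inr ⟨hne, hlive⟩)
    refine hf (t + 1) (hinner t ht) (Or.inl ⟨_, ?_, h2⟩)
    have h3 := hinner t ht t (by omega)
    rw [at']
    split_ifs
    · exact mem_kid_dn h3.1 h3.2
    · exact mem_kid_rt h3.1 h3.2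
  -- the deviations
  have hdev : ∀ t : Fin h, ∃ c : Node h, Y.Live P z c (q2 :: s) ∧
      ((f t = true ∧ c.1.val = (at' f t).1 ∧ (at' f t).2 < c.2.val) ∨
        (f t = false ∧ c.2.val = (at' f t).2 ∧ (at' f t).1 < c.1.val)) := by
    intro t
    have h1 : ¬ FreeP P z (q2 :: s) (dev f t (!f t)) := fun h1 => hblocked ⟨_, h1⟩
    unfold FreeP at h1
    push Not at h1
    obtain ⟨u, hu, hlive⟩ := h1
    have hut : (t : ℕ) < u := by
      by_contra hcon
      push Not at hcon
      have h2 : at' (dev f t (!f t)) u = at' f u :=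
        at_congr _ _ _ fun s hs => by
          have : s < t := by omega
          simp [dev, this]
      rw [h2] at hlive
      exact hstay u (lt_of_le_of_lt hcon t.2) hlive
    obtain ⟨w, rfl⟩ : ∃ w, u = (t : ℕ) + (w + 1) := ⟨u - t - 1, by omega⟩
    have h3 := hu (t + w) (by omega)
    rw [at_dev] at h3
    rw [at_dev] at hlive
    have h4 := hinner t t.2 t (by omega)
    refine ⟨_, hlive, ?_⟩
    cases hft : f t with
    | true =>
      left
      rw [hft] at h3
      simp only [Bool.not_true, Bool.false_eq_true, if_false] at h3 ⊢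
      refine ⟨trivial, nd_fst h4.1.le, ?_⟩
      rw [nd_snd (by omega)]
      omega
    | false =>
      right
      rw [hft] at h3
      simp only [Bool.not_false, if_true] at h3 ⊢
      refine ⟨trivial, nd_snd h4.2.le, ?_⟩
      rw [nd_fst (by omega)]
      omega
  choose c hc1 hc2 using hdev
  have hlt : ∀ t t' : Fin h, t < t' → c t ≠ c t' := by
    intro t t' htt hcc
    have h1 := at_mono f (show (t : ℕ) + 1 ≤ t' from htt)
    rw [at'] at h1
    have h2 := hc2 t
    have h3 := hc2 t'
    rw [← hcc] at h3
    rcases h2 with ⟨h2, h4, h5⟩ | ⟨h2, h4, h5⟩ <;> rcases h3 with ⟨h3, h6, h7⟩ | ⟨h3, h6, h7⟩ <;>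
      simp only [h2, Bool.false_eq_true, if_false, if_true] at h1 <;> omega
  have hinj : Function.Injective c := by
    intro t t' hcc
    rcases lt_trichotomy t t' with h1 | h1 | h1
    · exact absurd hcc (hlt t t' h1)
    · exact h1
    · exact absurd hcc.symm (hlt t' t h1)
  set I := univ.image c with hI
  have hIc : I.card = h := by
    rw [hI, card_image_of_injective _ hinj, card_univ, Fintype.card_fin]
  have hsplit : (I.filter (fun c => c.1.val % 2 = 0)).card +
      (I.filter (fun c => ¬ c.1.val % 2 = 0)).card = I.card :=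
    card_filter_add_card_filter_not _
  obtain ⟨e, he⟩ : ∃ e, m ≤ (I.filter (fun c => c.1.val % 2 = e)).card := by
    by_cases h1 : m ≤ (I.filter (fun c => c.1.val % 2 = 0)).card
    · exact ⟨0, h1⟩
    · refine ⟨1, ?_⟩
      have h2 : I.filter (fun c => ¬ c.1.val % 2 = 0) = I.filter (fun c => c.1.val % 2 = 1) := by
        apply filter_congr
        intro x _
        omega
      rw [h2] at hsplit
      omega
  obtain ⟨U, hU1, hU2⟩ := exists_subset_card_eq he
  refine hcr q2 s ((List.suffix_cons _ _).trans hsuf) ⟨U, hU2, ?_, ?_⟩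
  · exact indep_of_parity U e fun x hx => (mem_filter.1 (hU1 hx)).2
  · intro x hx
    obtain ⟨t, -, rfl⟩ := mem_image.1 (mem_filter.1 (hU1 hx)).1
    exact hc1 t

end Pool.Agent.W997.SR
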