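import Pool.Agent.W997.TS.Defs

/-!
# Evaluation problems on networks, and the counting lemma

The address which has to be read at a node is a function of the values of the children which is
injective in every argument (for example their sum).
-/

set_option autoImplicit false

namespace Pool.Agent.W997.SR

open Finset
open Pool.Agent.W997.TS (DBP)

/-- An evaluation problem: `V` is the set of variables, `Γ` the set of nodes. -/
structure Net (V Γ : Type) (k : ℕ) where
  /-- the node of a variable -/
  nodeOf : V → Γ
  /-- the variable which has to be read at a node, if the values of the nodes are given -/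
  pos : (Γ → Fin k) → Γ → V
  /-- the children -/
  kid : Γ → Finset Γ
  /-- a rank function -/
  rk : Γ → ℕ
  nodeOf_pos : ∀ z v, nodeOf (pos z v) = v
  pos_congr : ∀ z w v, (∀ c ∈ kid v, z c = w c) → pos z v = pos w v
  pos_inj : ∀ z w v c, c ∈ kid v → (∀ c' ∈ kid v, c' ≠ c → z c' = w c') → pos z v = pos w v →
    z c = w c
  kid_lt : ∀ v, ∀ c ∈ kid v, rk c < rk v

variable {V Γ : Type} {k : ℕ} [Fintype Γ] [DecidableEq Γ] [DecidableEq V] (Y : Net V Γ k)

namespace Net

/-- The input with background `g` in which the values of the nodes are given by `z`. -/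
def inp (g : V → Fin k) (z : Γ → Fin k) : V → Fin k := fun w =>
  if w = Y.pos z (Y.nodeOf w) then z (Y.nodeOf w) else g w

omit [Fintype Γ] [DecidableEq Γ] in
theorem inp_pos (g : V → Fin k) (z : Γ → Fin k) (v : Γ) : Y.inp g z (Y.pos z v) = z v := by
  unfold inp
  rw [Y.nodeOf_pos, if_pos rfl]

omit [Fintype Γ] [DecidableEq Γ] [DecidableEq V] in
theorem kid_self (v : Γ) : v ∉ Y.kid v := fun h => lt_irrefl _ (Y.kid_lt v v h)

variable (P : DBP V k)

/-- Some parent of `c` is evaluated before the next evaluation of `c`. -/
def Live (z : Γ → Fin k) (c : Γ) : List P.State → Prop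
  | [] => False
  | q :: l => (∃ a, c ∈ Y.kid a ∧ P.query q = Y.pos z a) ∨
      (P.query q ≠ Y.pos z c ∧ Live z c l)

/-- No node has two children in `U`. -/
def Indep (U : Finset Γ) : Prop :=
  ∀ a, ∀ c ∈ Y.kid a, ∀ c' ∈ Y.kid a, c ∈ U → c' ∈ U → c = c'

omit [Fintype Γ] [DecidableEq Γ] [DecidableEq V] in
theorem Indep.mono {U U' : Finset Γ} (h : Y.Indep U) (hs : U' ⊆ U) : Y.Indep U' :=
  fun a c hc c' hc' h1 h2 => h a c hc c' hc' (hs h1) (hs h2)

/-- The variables which are read in the states of a list. -/
def asked (P : DBP V k) (l : List P.State) : Finset V := (l.map P.query).toFinset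

omit [Fintype Γ] [DecidableEq Γ] in
theorem asked_cons (q : P.State) (l : List P.State) : asked P l ⊆ asked P (q :: l) := by
  intro w hw
  simp only [asked, List.mem_toFinset, List.mem_map] at hw ⊢
  obtain ⟨q', hq', rfl⟩ := hw
  exact ⟨q', List.mem_cons_of_mem _ hq', rfl⟩

omit [Fintype Γ] [DecidableEq Γ] in
theorem mem_asked_self (q : P.State) (l : List P.State) : P.query q ∈ asked P (q :: l) := by
  simp [asked]

omit [Fintype Γ] in
/-- **The counting lemma.** -/
theorem count (g : V → Fin k) (t : ℕ) : ∀ (T : ℕ) (q : P.State) (U : Finset Γ)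
    (Z : Finset V) (X : Finset (Γ → Fin k)), Y.Indep U →
    (∀ z ∈ X, ∀ w ∈ X, ∀ c, c ∉ U → z c = w c) →
    (∀ z ∈ X, ∀ a, ∀ c ∈ Y.kid a, c ∈ U → Y.pos z a ∉ Z) →
    (∀ z ∈ X, ∃ (l : List P.State) (r : Bool), l.length < T ∧ P.IsPath (Y.inp g z) q l r ∧
      (∀ c ∈ U, Y.Live P z c (q :: l)) ∧ (Z ∪ asked P (q :: l)).card ≤ t) →
    X.card ≤ (t - Z.card).choose U.card
  | 0, q, U, Z, X, _, _, _, h => by
    have : X = ∅ := by
      rw [eq_empty_iff_forall_notMem]
      intro z hz
      obtain ⟨l, r, hl, -⟩ := h z hz
      omega
    subst this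
    simp
  | T + 1, q, U, Z, X, hU, hX, hZ, h => by
    classical
    rcases X.eq_empty_or_nonempty with rfl | ⟨z0, hz0⟩
    · simp
    set w0 := P.query q with hw0
    set i := Y.nodeOf w0 with hi
    -- the common continuation for a set of assignments with the same answer
    have step : ∀ (X' : Finset (Γ → Fin k)) (U' : Finset Γ) (Z' : Finset V) (a0 : Fin k),
        X' ⊆ X → U' ⊆ U → Z' ⊆ insert w0 Z →
        (∀ z ∈ X', Y.inp g z w0 = a0) →
        (∀ z ∈ X', ∀ w ∈ X', ∀ c, c ∉ U' → z c = w c) →
        (∀ z ∈ X', ∀ a, ∀ c ∈ Y.kid a, c ∈ U' → w0 ≠ Y.pos z a) →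
        (∀ z ∈ X', ∀ a, ∀ c ∈ Y.kid a, c ∈ U' → Y.pos z a ∉ Z') →
        X'.card ≤ (t - Z'.card).choose U'.card := by
      intro X' U' Z' a0 hXX hU'U hZZ hans hagr hno hZ'
      rcases X'.eq_empty_or_nonempty with rfl | ⟨y0, hy0⟩
      · simp
      cases hn : P.next q a0 with
      | inr r0 =>
        have hlnil : ∀ z ∈ X', ∀ (l : List P.State) (r : Bool), P.IsPath (Y.inp g z) q l r →
            l = [] := by
          intro z hz l r hp
          cases l with
          | nil => rfl
          | cons q' l =>
            have h1 := hp.1
            change P.next q (Y.inp g z w0) = Sum.inl q' at h1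
            rw [hans z hz, hn] at h1
            cases h1
        have hUe : U' = ∅ := by
          rw [eq_empty_iff_forall_notMem]
          intro c hc
          obtain ⟨l, r, -, hp, hl, -⟩ := h y0 (hXX hy0)
          have h1 := hlnil y0 hy0 l r hp
          subst h1
          have h2 := hl c (hU'U hc)
          rcases h2 with ⟨a, ha, h2⟩ | h2
          · exact hno y0 hy0 a c ha hc h2
          · exact h2.2
        subst hUe
        have h3 : X'.card ≤ 1 := by
          rw [card_le_one]
          intro z hz w hw
          funext c
          exact hagr z hz w hw c (notMem_empty c)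
        simpa using h3
      | inl q' =>
        refine count g t T q' U' Z' X' (hU.mono Y hU'U) hagr hZ' ?_
        intro z hz
        obtain ⟨l, r, hlen, hp, hl, hb⟩ := h z (hXX hz)
        cases l with
        | nil =>
          have h1 : P.next q (Y.inp g z w0) = Sum.inr r := hp
          rw [hans z hz, hn] at h1
          cases h1
        | cons q2 l =>
          have h1 : P.next q (Y.inp g z w0) = Sum.inl q2 := hp.1
          rw [hans z hz, hn] at h1
          have h2 : q' = q2 := Sum.inl.inj h1
          subst h2
          refine ⟨l, r, by simp only [List.length_cons] at hlen; omega, hp.2, ?_, ?_⟩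
          · intro c hc
            rcases hl c (hU'U hc) with ⟨a, ha, h3⟩ | h3
            · exact absurd h3 (hno z hz a c ha hc)
            · exact h3.2
          · refine (card_le_card ?_).trans hb
            intro w hw
            rcases mem_union.1 hw with hw | hw
            · rcases mem_insert.1 (hZZ hw) with rfl | hw
              · exact mem_union_right _ (mem_asked_self P q _)
              · exact mem_union_left _ hw
            · exact mem_union_right _ (asked_cons P q _ hw)
    -- a live node is not evaluated now
    have hiU : ∀ z ∈ X, w0 = Y.pos z i → i ∉ U := by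
      intro z hz hwz hiU
      obtain ⟨l, r, -, -, hl, -⟩ := h z hz
      rcases hl i hiU with ⟨a, ha, h1⟩ | h1
      · have h2 : a = i := by rw [hi, hw0, h1, Y.nodeOf_pos]
        rw [h2] at ha
        exact Y.kid_self i ha
      · exact h1.1 hwz
    by_cases hiP : ∃ c ∈ Y.kid i, c ∈ U
    · obtain ⟨c0, hc0, hc0U⟩ := hiP
      by_cases hwZ : w0 ∈ Z
      · -- already tried
        refine step X U Z (g w0) (Subset.refl _) (Subset.refl _) (subset_insert _ _) ?_ hX ?_ hZ
        · intro z hz
          unfold inp
          rw [if_neg]
          intro h1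
          exact hZ z hz i c0 hc0 hc0U (h1 ▸ hwZ)
        · intro z hz a c ha hc h1
          exact hZ z hz a c ha hc (h1 ▸ hwZ)
      · -- a new candidate
        set Xy := X.filter (fun z => w0 = Y.pos z i) with hXy
        set Xn := X.filter (fun z => ¬ w0 = Y.pos z i) with hXn
        have hsum : X.card = Xy.card + Xn.card := by
          rw [hXy, hXn]
          exact (card_filter_add_card_filter_not _).symm
        set Z' := insert w0 Z with hZ'
        have hZc : Z'.card = Z.card + 1 := card_insert_of_notMem hwZ
        have hZcard : Z.card + 1 ≤ t := by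
          obtain ⟨l, r, -, -, -, hb⟩ := h z0 hz0
          have h2 : Z' ⊆ Z ∪ asked P (q :: l) := by
            intro w hw
            rcases mem_insert.1 hw with rfl | hw
            · exact mem_union_right _ (mem_asked_self P q l)
            · exact mem_union_left _ hw
          have h3 := card_le_card h2
          omega
        have huniq : ∀ a, ∀ c ∈ Y.kid a, c ∈ U → ∀ z, w0 = Y.pos z a → a = i ∧ c = c0 := by
          intro a c hc hcU z h1
          have h2 : a = i := by rw [hi, h1, Y.nodeOf_pos]
          refine ⟨h2, ?_⟩
          rw [h2] at hc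
          exact hU i c hc c0 hc0 hcU hc0U
        have hUc : (U.erase c0).card + 1 = U.card := card_erase_add_one hc0U
        have hy : Xy.card ≤ (t - Z'.card).choose (U.erase c0).card := by
          rcases Xy.eq_empty_or_nonempty with he | ⟨y0, hy0⟩
          · rw [he]; simp
          have hsub : ∀ z ∈ Xy, z ∈ X ∧ w0 = Y.pos z i := fun z hz => mem_filter.1 hz
          have hi0 : i ∉ U := hiU y0 (hsub y0 hy0).1 (hsub y0 hy0).2
          refine step Xy (U.erase c0) Z' (y0 i) (filter_subset _ _) (erase_subset _ _)
            (Subset.refl _) ?_ ?_ ?_ ?_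
          · intro z hz
            rw [(hsub z hz).2, Y.inp_pos]
            exact hX z (hsub z hz).1 y0 (hsub y0 hy0).1 i hi0
          · intro z hz w hw c hc
            by_cases hcc : c = c0
            · subst hcc
              refine Y.pos_inj z w i c hc0 ?_ ((hsub z hz).2.symm.trans (hsub w hw).2)
              intro c' hc' hne
              refine hX z (hsub z hz).1 w (hsub w hw).1 c' ?_
              intro hc'U
              exact hne (hU i c' hc' c hc0 hc'U hc0U)
            · refine hX z (hsub z hz).1 w (hsub w hw).1 c ?_
              intro hcU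
              exact hc (mem_erase.2 ⟨hcc, hcU⟩)
          · intro z hz a c ha hc h1
            obtain ⟨h2, h3⟩ := mem_erase.1 hc
            exact h2 (huniq a c ha h3 z h1).2
          · intro z hz a c ha hc h1
            obtain ⟨h2, h3⟩ := mem_erase.1 hc
            rcases mem_insert.1 h1 with h1 | h1
            · exact h2 (huniq a c ha h3 z h1.symm).2
            · exact hZ z (hsub z hz).1 a c ha h3 h1
        have hn' : Xn.card ≤ (t - Z'.card).choose U.card := by
          have hsub : ∀ z ∈ Xn, z ∈ X ∧ ¬ w0 = Y.pos z i := fun z hz => mem_filter.1 hz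
          refine step Xn U Z' (g w0) (filter_subset _ _) (Subset.refl _) (Subset.refl _) ?_ ?_ ?_ ?_
          · intro z hz
            unfold inp
            rw [if_neg (hsub z hz).2]
          · intro z hz w hw
            exact hX z (hsub z hz).1 w (hsub w hw).1
          · intro z hz a c ha hc h1
            have h2 := (huniq a c ha hc z h1).1
            subst h2
            exact (hsub z hz).2 h1
          · intro z hz a c ha hc h1
            rcases mem_insert.1 h1 with h1 | h1
            · have h2 := (huniq a c ha hc z h1.symm).1
              subst h2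
              exact (hsub z hz).2 h1.symm
            · exact hZ z (hsub z hz).1 a c ha hc h1
        rw [hsum]
        have h1 : t - Z.card = (t - Z'.card) + 1 := by omega
        rw [h1, ← hUc, Nat.choose_succ_succ, Nat.succ_eq_add_one, hUc]
        exact Nat.add_le_add hy hn'
    · -- a node which is not the parent of a node in `U`
      push Not at hiP
      have hposeq : ∀ z ∈ X, Y.pos z i = Y.pos z0 i := by
        intro z hz
        exact Y.pos_congr z z0 i fun c hc => hX z hz z0 hz0 c (hiP c hc)
      have hno : ∀ z ∈ X, ∀ a, ∀ c ∈ Y.kid a, c ∈ U → w0 ≠ Y.pos z a := by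
        intro z _ a c ha hc h1
        have h2 : a = i := by rw [hi, h1, Y.nodeOf_pos]
        subst h2
        exact hiP c ha hc
      refine step X U Z (Y.inp g z0 w0) (Subset.refl _) (Subset.refl _) (subset_insert _ _) ?_ hX
        hno hZ
      intro z hz
      unfold inp
      rw [← hi, hposeq z hz]
      split_ifs with h1
      · exact hX z hz z0 hz0 i (hiU z0 hz0 h1)
      · rfl

end Net

end Pool.Agent.W997.SR
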