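import Pool.Agent.W997.SR.PebProg
import Pool.Agent.W997.DB.Stmt
import Pool.Agent.W994.DE.Pyramid

/-!
# The pebbling law
-/

set_option autoImplicit false

namespace Pool.Agent.W997.SR

open Finset
open Pool.Agent.W997.TS (DBP bit)
open Pool.Agent.W997.DB (HardReadsOrTime HardReads)
open Pool.Agent.W994.DE (PyrNode)

namespace Dag

variable {G : Dag}

/-- Every node can be pebbled with `n` pebbles and at most `n` placements. -/
theorem pebbles_card (v₀ : G.Γ) : ∃ t ≤ Fintype.card G.Γ, G.Pebbles v₀ (Fintype.card G.Γ) t := by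
  classical
  have key : ∀ (e : ℕ) (C : Finset G.Γ), (∀ c ∈ C, G.kid c ⊆ C) → Cᶜ.card = e →
      ∃ t ≤ e, G.Wins v₀ (Fintype.card G.Γ) t C := by
    intro e
    induction e with
    | zero =>
      intro C _ hC
      refine ⟨0, le_rfl, ?_⟩
      have h1 : Cᶜ = ∅ := card_eq_zero.1 hC
      have h2 : v₀ ∉ Cᶜ := by rw [h1]; exact notMem_empty _
      rw [mem_compl, not_not] at h2
      exact h2
    | succ e ih =>
      intro C hcl hC
      by_cases hv : v₀ ∈ C
      · exact ⟨0, Nat.zero_le _, hv⟩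
      obtain ⟨v, hvC, hmin⟩ := exists_min_image Cᶜ G.rk ⟨v₀, mem_compl.2 hv⟩
      have hkid : G.kid v ⊆ C := by
        intro c hc
        by_contra hcC
        have h1 := hmin c (mem_compl.2 hcC)
        have h2 := G.kid_lt v c hc
        omega
      rw [mem_compl] at hvC
      obtain ⟨t, ht, hw⟩ := ih (insert v C) (by
        intro c hc
        rcases mem_insert.1 hc with rfl | hc
        · exact hkid.trans (subset_insert _ _)
        · exact (hcl c hc).trans (subset_insert _ _)) (by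
        rw [card_compl] at hC ⊢
        rw [card_insert_of_notMem hvC]
        omega)
      exact ⟨t + 1, by omega, C, Subset.refl _, v, hkid, card_le_univ _, hw⟩
  obtain ⟨t, ht, hw⟩ := key _ ∅ (fun c hc => absurd hc (notMem_empty c)) rfl
  refine ⟨t, ?_, hw⟩
  rw [compl_empty, card_univ] at ht
  exact ht

/-- **The pebbling law.** -/
theorem law (v₀ : G.Γ) (d k : ℕ) [NeZero k] (hd1 : 1 ≤ d) (hd : G.DegLe d)
    (htop : ∀ v, v₀ ∉ G.kid v) (hk : Even k) (m τ : ℕ) (hm : 1 ≤ m)
    (hτ : ∀ t < τ, ¬ G.Pebbles v₀ (m * d ^ 2) t) (s γ : ℝ) (hs1 : 1 ≤ s)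
    (hs : (Fintype.card G.Γ : ℝ) ≤ s ^ 2) (hγ : 2 ≤ γ * s) :
    HardReadsOrTime (fun x : G.Var k → Fin k => bit (value x v₀)) (m * Real.log s) γ
      (γ / 2 * (k / s ^ 4)) (γ / 2 * τ) := by
  classical
  intro P T M R hP hrun hag
  have hs0 : 0 < s := by linarith
  have hγ0 : 0 < γ := by
    by_contra hcon
    push Not at hcon
    nlinarith
  have hk1 : 1 ≤ k := NeZero.one_le
  have hk0 : (0 : ℝ) < (k : ℝ) := by exact_mod_cast hk1
  have hP0 : 0 < (P.size : ℝ) := by
    have : 0 < P.size := Fintype.card_pos_iff.2 ⟨P.start⟩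
    exact_mod_cast this
  have hPs : (P.size : ℝ) ≤ s ^ m := by
    rw [← Real.log_le_log_iff hP0 (by positivity), Real.log_pow]
    exact hP
  obtain ⟨t, ht⟩ : ∃ t : ℕ, t = ⌊(k : ℝ) / s ^ 4⌋₊ := ⟨_, rfl⟩
  have ht1 : (t : ℝ) ≤ (k : ℝ) / s ^ 4 := by rw [ht]; exact Nat.floor_le (by positivity)
  have ht2 : (k : ℝ) / s ^ 4 < t + 1 := by rw [ht]; exact Nat.lt_floor_add_one _
  obtain ⟨ρ, hρ⟩ : ∃ ρ : ℝ, ρ = ((Fintype.card G.Γ * t : ℕ) : ℝ) / (k : ℝ) := ⟨_, rfl⟩
  have hρ0 : 0 ≤ ρ := by rw [hρ]; positivity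
  have hρ1 : ρ ≤ 1 / s ^ 2 := by
    rw [hρ]
    push_cast
    rw [div_le_div_iff₀ hk0 (by positivity)]
    have h1 : (t : ℝ) * s ^ 4 ≤ k := by
      rw [← le_div_iff₀ (by positivity)]
      exact ht1
    have h2 : (0 : ℝ) ≤ t := by positivity
    calc (Fintype.card G.Γ : ℝ) * t * s ^ 2 ≤ s ^ 2 * t * s ^ 2 := by gcongr
      _ = t * s ^ 4 := by ring
      _ ≤ 1 * k := by linarith
  have hfail : ρ + P.size * ρ ^ m ≤ γ := by
    have h1 : ρ ≤ 1 / s := by
      refine hρ1.trans ?_
      apply one_div_le_one_div_of_le hs0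
      nlinarith
    have h2 : P.size * ρ ^ m ≤ 1 / s := by
      calc P.size * ρ ^ m ≤ s ^ m * (1 / s ^ 2) ^ m :=
            mul_le_mul hPs (pow_le_pow_left₀ hρ0 hρ1 m) (by positivity) (by positivity)
        _ = (1 / s) ^ m := by
            rw [← mul_pow]
            congr 1
            field_simp
        _ ≤ (1 / s) ^ 1 := by
            apply pow_le_pow_of_le_one (by positivity) _ hm
            rw [div_le_one hs0]
            exact hs1
        _ = 1 / s := pow_one _
    have h3 : 1 / s + 1 / s ≤ γ := by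
      rw [← add_div, div_le_iff₀ hs0]
      linarith
    linarith
  rw [hρ] at hfail
  rcases (G.net k).law_avg2 m t τ γ hk hk1 P v₀ htop value (fun x v => value_eq' x v) (by
    intro z l hg
    obtain ⟨t', ht', hw⟩ := wins_of_good P z v₀ m d hd hd1 l hg
    by_contra hcon
    exact hτ t' (by omega) hw) T M R hrun hfail hag with h | h
  · left
    refine le_trans ?_ h
    apply mul_le_mul_of_nonneg_right _ (by positivity)
    exact mul_le_mul_of_nonneg_left ht2.le (by positivity)
  · right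
    exact h

/-- The pebbling law for graphs which cannot be pebbled. -/
theorem law' (v₀ : G.Γ) (d k : ℕ) [NeZero k] (hd1 : 1 ≤ d) (hd : G.DegLe d)
    (htop : ∀ v, v₀ ∉ G.kid v) (hk : Even k) (m : ℕ) (hm : 1 ≤ m)
    (hno : ∀ t, ¬ G.Pebbles v₀ (m * d ^ 2) t) (s γ : ℝ) (hs1 : 1 ≤ s)
    (hs : (Fintype.card G.Γ : ℝ) ≤ s ^ 2) (hγ : 2 ≤ γ * s) :
    HardReads (fun x : G.Var k → Fin k => bit (value x v₀)) (m * Real.log s) γ
      (γ / 2 * (k / s ^ 4)) := by
  intro P T M R hP hrun hag
  have hγ0 : 0 < γ := by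
    by_contra hcon
    push Not at hcon
    nlinarith
  obtain ⟨τ, hτ⟩ := exists_nat_gt ((∑ x, (T x : ℝ)) / (γ / 2))
  rcases law v₀ d k hd1 hd htop hk m τ hm (fun t _ => hno t) s γ hs1 hs hγ P T M R hP hrun hag
    with h | h
  · exact h
  · exfalso
    have hI : (1 : ℝ) ≤ Fintype.card (G.Var k → Fin k) := by
      have : 0 < Fintype.card (G.Var k → Fin k) := Fintype.card_pos_iff.2 ⟨fun _ => 0⟩
      exact_mod_cast this
    rw [div_lt_iff₀ (by positivity)] at hτ
    have h1 : γ / 2 * τ ≤ γ / 2 * τ * Fintype.card (G.Var k → Fin k) := by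
      have : 0 ≤ γ / 2 * τ := by positivity
      nlinarith
    linarith

/-! ### Pyramids -/

/-- The pyramid of height `h`: the nodes are the pairs `(l, a)` with `l + a ≤ h`, the children of
the node `(l + 1, a)` are `(l, a)` and `(l, a + 1)`. -/
noncomputable def pyramid (h : ℕ) : Dag where
  Γ := PyrNode h
  kid := fun v => univ.filter (fun c => c.1.1 + 1 = v.1.1 ∧ (c.1.2 = v.1.2 ∨ c.1.2 = v.1.2 + 1))
  rk := fun v => v.1.1
  kid_lt := by
    intro v c hc
    rw [mem_filter] at hc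
    omega

/-- The top of the pyramid. -/
def top (h : ℕ) : (pyramid h).Γ := (⟨(h, 0), le_rfl⟩ : PyrNode h)

theorem pyramid_deg (h : ℕ) : (pyramid h).DegLe 2 := by
  classical
  intro v
  constructor
  · have h1 : ((pyramid h).kid v).card ≤ ({v.1.2, v.1.2 + 1} : Finset ℕ).card := by
      refine card_le_card_of_injOn (fun c : PyrNode h => c.1.2) ?_ ?_
      · intro c hc
        have hc' := (mem_filter.1 (mem_coe.1 hc)).2
        rw [mem_coe, mem_insert, mem_singleton]
        exact hc'.2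
      · intro c hc c' hc' heq
        have h2 := (mem_filter.1 (mem_coe.1 hc)).2
        have h3 := (mem_filter.1 (mem_coe.1 hc')).2
        apply Subtype.ext
        refine Prod.ext ?_ heq
        have h4 := h2.1
        have h5 := h3.1
        omega
    exact h1.trans card_le_two
  · have h1 : (univ.filter (fun a => v ∈ (pyramid h).kid a)).card ≤
        ({v.1.2, v.1.2 - 1} : Finset ℕ).card := by
      refine card_le_card_of_injOn (fun c : PyrNode h => c.1.2) ?_ ?_
      · intro c hc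
        have hc' := (mem_filter.1 (mem_filter.1 (mem_coe.1 hc)).2).2
        rw [mem_coe, mem_insert, mem_singleton]
        rcases hc'.2 with h2 | h2
        · left; exact h2.symm
        · right
          change (c : PyrNode h).1.2 = _
          omega
      · intro c hc c' hc' heq
        have h2 := (mem_filter.1 (mem_filter.1 (mem_coe.1 hc)).2).2
        have h3 := (mem_filter.1 (mem_filter.1 (mem_coe.1 hc')).2).2
        apply Subtype.ext
        refine Prod.ext ?_ heq
        have h4 := h2.1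
        have h5 := h3.1
        exact h4.symm.trans h5
    exact h1.trans card_le_two

theorem pyramid_top (h : ℕ) : ∀ v, top h ∉ (pyramid h).kid v := by
  intro v hv
  have h1 := (mem_filter.1 hv).2.1
  have h2 := (v : PyrNode h).2
  change h + 1 = (v : PyrNode h).1.1 at h1
  omega

theorem mem_kid {h : ℕ} (v c : PyrNode h)
    (hc : c.1.1 + 1 = v.1.1 ∧ (c.1.2 = v.1.2 ∨ c.1.2 = v.1.2 + 1)) : c ∈ (pyramid h).kid v :=
  mem_filter.2 ⟨mem_univ c, hc⟩

/-- The pyramid of height `h` needs `h + 1` pebbles (Cook 1974). -/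
theorem pyramid_pebbles (h p : ℕ) : ∀ (t : ℕ) (C : Finset (PyrNode h)),
    Pool.Agent.W994.DE.Pyr.Open C → (pyramid h).Wins (top h) p t C → h + 1 ≤ p
  | 0, C, hC, hw => by
    obtain ⟨a, ha, ho⟩ := hC
    refine absurd ⟨by rw [ha.1, add_zero], ?_⟩ (ho h le_rfl)
    have h4 : (⟨(h, a h), by rw [ha.1, add_zero]⟩ : PyrNode h) = top h := by
      apply Subtype.ext
      show (h, a h) = (h, 0)
      rw [ha.1]
    rw [h4]
    exact hw
  | t + 1, C, hC, ⟨C₁, hC₁, v, hv, hp, hw⟩ => by
    classical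
    have h1 := Pool.Agent.W994.DE.Pyr.open_mono hC₁ hC
    by_cases h2 : Pool.Agent.W994.DE.Pyr.Open (h := h) (insert v C₁)
    · exact pyramid_pebbles h p t _ h2 hw
    · refine (Pool.Agent.W994.DE.Pyr.last_path (A := C₁) (i := v) ?_ h1 h2).trans hp
      intro s
      apply hv
      have h3 := Pool.Agent.W994.DE.fin_ite s
      have h4 : ((Pool.Agent.W994.DE.pyramid h).kid v s : PyrNode h).1 =
          ((v : PyrNode h).1.1 - 1, (v : PyrNode h).1.2 + s.val) := rfl
      refine mem_kid v _ ?_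
      rw [h4]
      simp only
      omega

/-- The law for pyramids. -/
theorem pyramid_law (h k : ℕ) [NeZero k] (hk : Even k) (m : ℕ) (hm : 1 ≤ m) (hmh : 4 * m ≤ h)
    (s γ : ℝ) (hs : (h : ℝ) + 1 ≤ s) (hγ : 2 ≤ γ * s) :
    HardReads (fun x : (pyramid h).Var k → Fin k => bit (value x (top h))) (m * Real.log s) γ
      (γ / 2 * (k / s ^ 4)) := by
  have h0 : (0 : ℝ) ≤ h := Nat.cast_nonneg h
  refine law' (top h) 2 k (by norm_num) (pyramid_deg h) (pyramid_top h) hk m hm ?_ s γ
    (by linarith) ?_ hγ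
  · intro t ht
    have h1 := pyramid_pebbles h (m * 2 ^ 2) t ∅ Pool.Agent.W994.DE.Pyr.open_empty ht
    omega
  · have h1 : Fintype.card (PyrNode h) ≤ (h + 1) ^ 2 := by
      have := Fintype.card_le_of_injective _ (Pool.Agent.W994.DE.pyrNode_inj h)
      rw [Fintype.card_prod, Fintype.card_fin, ← sq] at this
      exact this
    have h2 : (Fintype.card (PyrNode h) : ℝ) ≤ ((h : ℝ) + 1) ^ 2 := by exact_mod_cast h1
    calc (Fintype.card (PyrNode h) : ℝ) ≤ ((h : ℝ) + 1) ^ 2 := h2
      _ ≤ s ^ 2 := pow_le_pow_left₀ (by positivity) hs 2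

end Dag

end Pool.Agent.W997.SR
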