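import Pool.Agent.W997.SR.Grid

/-!
# The natural program for grid evaluation
-/

set_option autoImplicit false

namespace Pool.Agent.W997.SR

open Finset
open Pool.Agent.W997.TS (DBP bit)

variable {h k : ℕ} [NeZero k]

/-- The address of the entry of `(i, j)` if the values in the array `A` are given. -/
def addr (A : Fin (h + 1) → Fin k) (v : Node h) : Fin k :=
  if v.1.val < h ∧ v.2.val < h then A v.2 + A ⟨min (v.2.val + 1) h, by omega⟩ else 0

/-- The program: row by row, from the last row to the first one. -/
def prog (h k : ℕ) [NeZero k] : DBP (Var h k) k where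
  State := Node h × (Fin (h + 1) → Fin k)
  start := (nd h h, fun _ => 0)
  query := fun q => (q.1, addr q.2 q.1)
  next := fun q c =>
    if q.1.2.val ≠ 0 then Sum.inl (nd q.1.1.val (q.1.2.val - 1), Function.update q.2 q.1.2 c)
    else if q.1.1.val ≠ 0 then Sum.inl (nd (q.1.1.val - 1) h, Function.update q.2 q.1.2 c)
    else Sum.inr (bit c)

theorem prog_size : (prog h k).size = (h + 1) ^ 2 * k ^ (h + 1) := by
  unfold DBP.size prog
  simp only [Fintype.card_prod, Fintype.card_fun, Fintype.card_fin]
  ring

/-- A state of the program. -/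
def st (i j : ℕ) (A : Fin (h + 1) → Fin k) : (prog h k).State :=
  ((nd i j, A) : Node h × (Fin (h + 1) → Fin k))

/-- What the array contains. -/
def Inv (x : Input h k) (i j : ℕ) (A : Fin (h + 1) → Fin k) : Prop :=
  ∀ s : Fin (h + 1), (j < s.val → A s = value x (nd i s.val)) ∧
    (s.val ≤ j → i < h → A s = value x (nd (i + 1) s.val))

theorem entry (x : Input h k) (i j : ℕ) (hi : i ≤ h) (hj : j ≤ h) (A : Fin (h + 1) → Fin k)
    (hA : Inv x i j A) : x (nd i j, addr A (nd i j)) = value x (nd i j) := by
  have e1 : (nd (h := h) i j).1.val = i := nd_fst hi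
  have e2 : (nd (h := h) i j).2.val = j := nd_snd hj
  by_cases hv : i < h ∧ j < h
  · have hv' : (nd (h := h) i j).1.val < h ∧ (nd (h := h) i j).2.val < h := by
      rw [e1, e2]; exact hv
    have h1 : A (nd (h := h) i j).2 = value x (nd (i + 1) j) := by
      have := (hA (nd (h := h) i j).2).2 (by rw [e2]) hv.1
      rw [e2] at this
      exact this
    have h2 : A ⟨min ((nd (h := h) i j).2.val + 1) h, by omega⟩ = value x (nd i (j + 1)) := by
      have h4 : (⟨min ((nd (h := h) i j).2.val + 1) h, by omega⟩ : Fin (h + 1)) =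
          ⟨j + 1, by omega⟩ := Fin.ext (by simp only [e2]; omega)
      rw [h4]
      exact (hA ⟨j + 1, by omega⟩).1 (by simp only; omega)
    have h3 : value x (nd i j) = x (nd i j,
        value x (nd (i + 1) j) + value x (nd i (j + 1))) := by
      rw [value, dif_pos hv', e1, e2]
    rw [h3]
    unfold addr
    rw [if_pos hv', h1, h2]
  · have hv' : ¬ ((nd (h := h) i j).1.val < h ∧ (nd (h := h) i j).2.val < h) := by
      rw [e1, e2]; exact hv
    have h3 : value x (nd (h := h) i j) = x (nd i j, 0) := by
      rw [value, dif_neg hv']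
    rw [h3]
    unfold addr
    rw [if_neg hv']

theorem next_a (i j : ℕ) (hi : i ≤ h) (hj : j ≤ h) (hj0 : j ≠ 0) (A : Fin (h + 1) → Fin k)
    (c : Fin k) : (prog h k).next (nd i j, A) c =
      Sum.inl (nd i (j - 1), Function.update A (nd (h := h) i j).2 c) := by
  have e1 : (nd (h := h) i j).1.val = i := nd_fst hi
  have e2 : (nd (h := h) i j).2.val = j := nd_snd hj
  unfold prog
  simp only
  rw [if_pos (by rw [e2]; exact hj0), e1, e2]

theorem next_b (i j : ℕ) (hi : i ≤ h) (hj : j ≤ h) (hj0 : j = 0) (hi0 : i ≠ 0)
    (A : Fin (h + 1) → Fin k) (c : Fin k) : (prog h k).next (nd i j, A) c =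
      Sum.inl (nd (i - 1) h, Function.update A (nd (h := h) i j).2 c) := by
  have e1 : (nd (h := h) i j).1.val = i := nd_fst hi
  have e2 : (nd (h := h) i j).2.val = j := nd_snd hj
  unfold prog
  simp only
  rw [if_neg (by rw [e2]; exact not_not.2 hj0), if_pos (by rw [e1]; exact hi0), e1]

theorem next_c (A : Fin (h + 1) → Fin k) (c : Fin k) :
    (prog h k).next (nd 0 0, A) c = Sum.inr (bit c) := by
  have e1 : (nd (h := h) 0 0).1.val = 0 := nd_fst (Nat.zero_le _)
  have e2 : (nd (h := h) 0 0).2.val = 0 := nd_snd (Nat.zero_le _)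
  unfold prog
  simp only
  rw [if_neg (by rw [e2]; exact not_not.2 rfl), if_neg (by rw [e1]; exact not_not.2 rfl)]

theorem path (x : Input h k) : ∀ (n i j : ℕ), n = i * (h + 1) + j → i ≤ h → j ≤ h →
    ∀ A : Fin (h + 1) → Fin k, Inv x i j A →
    ∃ l : List (prog h k).State, l.length = n ∧
      (prog h k).IsPath x (st i j A) l (bit (corner x)) := by
  intro n
  induction n with
  | zero =>
    intro i j hn hi hj A hA
    have hi0 : i = 0 := by
      rcases Nat.eq_zero_or_pos i with h1 | h1
      · exact h1
      · nlinarith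
    have hj0 : j = 0 := by omega
    subst hi0 hj0
    refine ⟨[], rfl, ?_⟩
    change (prog h k).next (nd 0 0, A) (x (nd 0 0, addr A (nd 0 0))) = Sum.inr (bit (corner x))
    rw [entry x 0 0 hi hj A hA, next_c]
    rfl
  | succ n ih =>
    intro i j hn hi hj A hA
    have e1 : (nd (h := h) i j).1.val = i := nd_fst hi
    have e2 : (nd (h := h) i j).2.val = j := nd_snd hj
    set A' := Function.update A (nd (h := h) i j).2 (value x (nd i j)) with hA'
    have hnew : ∀ s : Fin (h + 1), j ≤ s.val → A' s = value x (nd i s.val) := by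
      intro s hs
      by_cases hsj : s.val = j
      · have h1 : s = (nd (h := h) i j).2 := Fin.ext (by rw [e2, hsj])
        rw [hA', hsj, h1, Function.update_self]
      · have h1 : s ≠ (nd (h := h) i j).2 := fun h2 => hsj (by rw [h2, e2])
        rw [hA', Function.update_of_ne h1]
        exact (hA s).1 (by omega)
    have hold : ∀ s : Fin (h + 1), s.val < j → i < h → A' s = value x (nd (i + 1) s.val) := by
      intro s hs hih
      have h1 : s ≠ (nd (h := h) i j).2 := fun h2 => by
        have := congrArg Fin.val h2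
        omega
      rw [hA', Function.update_of_ne h1]
      exact (hA s).2 hs.le hih
    by_cases hj0 : j = 0
    · have hi0 : i ≠ 0 := by
        rintro rfl
        omega
      obtain ⟨l, hl, hp⟩ := ih (i - 1) h (by
        obtain ⟨i', rfl⟩ : ∃ i', i = i' + 1 := ⟨i - 1, by omega⟩
        rw [Nat.add_sub_cancel]
        have : (i' + 1) * (h + 1) = i' * (h + 1) + (h + 1) := by ring
        omega) (by omega) le_rfl A' (by
        intro s
        refine ⟨fun h1 => ?_, fun _ _ => ?_⟩
        · have := s.2
          omega
        · have h3 : i - 1 + 1 = i := by omega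
          rw [h3]
          exact hnew s (by omega))
      refine ⟨st (i - 1) h A' :: l, ?_, ?_, hp⟩
      · rw [List.length_cons, hl]
      · change (prog h k).next (nd i j, A) (x (nd i j, addr A (nd i j))) = _
        rw [entry x i j hi hj A hA, next_b i j hi hj hj0 hi0]
        rfl
    · obtain ⟨l, hl, hp⟩ := ih i (j - 1) (by omega) hi (by omega) A' (by
        intro s
        exact ⟨fun h1 => hnew s (by omega), fun h1 h2 => hold s (by omega) h2⟩)
      refine ⟨st i (j - 1) A' :: l, ?_, ?_, hp⟩
      · rw [List.length_cons, hl]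
      · change (prog h k).next (nd i j, A) (x (nd i j, addr A (nd i j))) = _
        rw [entry x i j hi hj A hA, next_a i j hi hj hj0]
        rfl

theorem prog_run (x : Input h k) : ∃ m : ℕ, m ≤ (h + 1) ^ 2 ∧
    (prog h k).Run x ((h + 1) ^ 2) m (bit (corner x)) := by
  obtain ⟨l, hl, hp⟩ := path x (h * (h + 1) + h) h h rfl le_rfl le_rfl (fun _ => 0) (by
    intro s
    refine ⟨fun h1 => ?_, fun _ h2 => ?_⟩
    · have := s.2
      omega
    · omega)
  have hlen : (((prog h k).start :: l).length) = (h + 1) ^ 2 := by
    rw [List.length_cons, hl]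
    ring
  refine ⟨_, ?_, l, hp, hlen, rfl⟩
  refine (List.toFinset_card_le _).trans ?_
  rw [List.length_map, hlen]

end Pool.Agent.W997.SR
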