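import Pool.Agent.W997.SR.Net

/-!
# The fibre bound, the union bound, and uniformly random inputs
-/

set_option autoImplicit false

namespace Pool.Agent.W997.SR

open Finset
open Pool.Agent.W997.TS (DBP)

variable {V Γ : Type} {k : ℕ} [Fintype Γ] [DecidableEq Γ] [DecidableEq V] (Y : Net V Γ k)

namespace Net

variable (P : DBP V k)

/-- The fibre bound. -/
theorem fiber (g : V → Fin k) (t : ℕ) (q : P.State) (U : Finset Γ) (hU : Y.Indep U)
    (A : Finset (Γ → Fin k))
    (hA : ∀ z ∈ A, ∃ (l : List P.State) (r : Bool), P.IsPath (Y.inp g z) q l r ∧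
      (∀ c ∈ U, Y.Live P z c (q :: l)) ∧ (asked P (q :: l)).card ≤ t) :
    A.card * k ^ U.card ≤ t.choose U.card * k ^ Fintype.card Γ := by
  classical
  choose! l r hp hl hb using hA
  set T := (A.sup fun z => (l z).length) + 1 with hT
  set res : (Γ → Fin k) → (((Uᶜ : Finset Γ) : Type) → Fin k) := fun z c => z c.1 with hres
  have hfib : ∀ y : ((Uᶜ : Finset Γ) : Type) → Fin k,
      (A.filter (fun z => res z = y)).card ≤ t.choose U.card := by
    intro y
    have h1 := Y.count P g t T q U ∅ (A.filter (fun z => res z = y)) hU ?_ ?_ ?_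
    · simpa using h1
    · intro z hz w hw c hc
      have h2 := (mem_filter.1 hz).2.trans (mem_filter.1 hw).2.symm
      exact congrFun h2 ⟨c, mem_compl.2 hc⟩
    · intro z _ a c _ _
      exact notMem_empty _
    · intro z hz
      have hzA := (mem_filter.1 hz).1
      refine ⟨l z, r z, ?_, hp z hzA, hl z hzA, ?_⟩
      · have : (l z).length ≤ A.sup fun z => (l z).length :=
          le_sup (f := fun z => (l z).length) hzA
        omega
      · rw [empty_union]
        exact hb z hzA
  have h1 : A.card = ∑ y : ((Uᶜ : Finset Γ) : Type) → Fin k,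
      (A.filter (fun z => res z = y)).card :=
    card_eq_sum_card_fiberwise (fun z _ => mem_coe.2 (mem_univ _))
  have h2 : A.card ≤ k ^ (Uᶜ).card * t.choose U.card := by
    rw [h1]
    refine (sum_le_sum fun y _ => hfib y).trans ?_
    rw [sum_const, card_univ, Fintype.card_fun, Fintype.card_fin, Fintype.card_coe, smul_eq_mul]
  calc A.card * k ^ U.card ≤ (k ^ (Uᶜ).card * t.choose U.card) * k ^ U.card :=
        Nat.mul_le_mul_right _ h2
    _ = t.choose U.card * (k ^ (Uᶜ).card * k ^ U.card) := by ring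
    _ = t.choose U.card * k ^ Fintype.card Γ := by
        rw [← pow_add, card_compl_add_card]

/-- There are `m` independent live nodes. -/
def Crowded (z : Γ → Fin k) (m : ℕ) (l : List P.State) : Prop :=
  ∃ U : Finset Γ, U.card = m ∧ Y.Indep U ∧ ∀ c ∈ U, Y.Live P z c l

/-- **The union bound.** -/
theorem union_bound (g : V → Fin k) (t : ℕ) (q : P.State) (m : ℕ) (hk : 1 ≤ k)
    (A : Finset (Γ → Fin k))
    (hA : ∀ z ∈ A, ∃ (l : List P.State) (r : Bool), P.IsPath (Y.inp g z) q l r ∧
      (asked P (q :: l)).card ≤ t ∧ Y.Crowded P z m (q :: l)) :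
    (A.card : ℝ) ≤ ((Fintype.card Γ * t : ℕ) / (k : ℝ)) ^ m * (k : ℝ) ^ Fintype.card Γ := by
  classical
  have hk0 : (0 : ℝ) < k := by exact_mod_cast hk
  set F : Finset (Finset Γ) := univ.filter (fun U => U.card = m ∧ Y.Indep U) with hF
  set B : Finset Γ → Finset (Γ → Fin k) := fun U =>
    A.filter (fun z => ∃ (l : List P.State) (r : Bool), P.IsPath (Y.inp g z) q l r ∧
      (∀ c ∈ U, Y.Live P z c (q :: l)) ∧ (asked P (q :: l)).card ≤ t) with hB
  have hcov : A ⊆ F.biUnion B := by
    intro z hz
    obtain ⟨l, r, hp, hb, U, hU, hU2, hU3⟩ := hA z hz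
    rw [mem_biUnion]
    exact ⟨U, mem_filter.2 ⟨mem_univ _, hU, hU2⟩, mem_filter.2 ⟨hz, l, r, hp, hU3, hb⟩⟩
  have hFcard : (F.card : ℝ) ≤ ((Fintype.card Γ : ℕ) : ℝ) ^ m := by
    have h1 : F ⊆ powersetCard m univ := by
      intro U hU
      rw [mem_powersetCard]
      exact ⟨subset_univ _, (mem_filter.1 hU).2.1⟩
    have h2 := card_le_card h1
    rw [card_powersetCard, card_univ] at h2
    exact_mod_cast h2.trans (Nat.choose_le_pow _ _)
  have hBcard : ∀ U ∈ F, ((B U).card : ℝ) ≤ ((t : ℝ) / k) ^ m * (k : ℝ) ^ Fintype.card Γ := by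
    intro U hU
    obtain ⟨-, hU1, hU2⟩ := mem_filter.1 hU
    have h1 := Y.fiber P g t q U hU2 (B U) (fun z hz => (mem_filter.1 hz).2)
    rw [hU1] at h1
    have h2 : (B U).card * k ^ m ≤ t ^ m * k ^ Fintype.card Γ :=
      h1.trans (Nat.mul_le_mul_right _ (Nat.choose_le_pow _ _))
    have h3 : ((B U).card : ℝ) * (k : ℝ) ^ m ≤ (t : ℝ) ^ m * (k : ℝ) ^ Fintype.card Γ := by
      exact_mod_cast h2
    rw [div_pow, div_mul_eq_mul_div, le_div_iff₀ (by positivity)]
    exact h3
  calc (A.card : ℝ) ≤ ((F.biUnion B).card : ℝ) := by exact_mod_cast card_le_card hcov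
    _ ≤ ((∑ U ∈ F, (B U).card : ℕ) : ℝ) := by exact_mod_cast card_biUnion_le
    _ = ∑ U ∈ F, ((B U).card : ℝ) := by push_cast; rfl
    _ ≤ ∑ U ∈ F, (((t : ℝ) / k) ^ m * (k : ℝ) ^ Fintype.card Γ) := sum_le_sum hBcard
    _ = F.card * (((t : ℝ) / k) ^ m * (k : ℝ) ^ Fintype.card Γ) := by
        rw [sum_const, nsmul_eq_mul]
    _ ≤ ((Fintype.card Γ : ℕ) : ℝ) ^ m * (((t : ℝ) / k) ^ m * (k : ℝ) ^ Fintype.card Γ) :=
        mul_le_mul_of_nonneg_right hFcard (by positivity)
    _ = _ := by
        rw [← mul_assoc, ← mul_pow]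
        congr 2
        push_cast
        ring

omit [Fintype Γ] [DecidableEq Γ] [DecidableEq V] in
theorem val_unique (x : V → Fin k) (z w : Γ → Fin k) (hz : ∀ v, z v = x (Y.pos z v))
    (hw : ∀ v, w v = x (Y.pos w v)) : z = w := by
  have h : ∀ (n : ℕ) (v : Γ), Y.rk v = n → z v = w v := by
    intro n
    induction n using Nat.strong_induction_on with
    | _ n ih =>
      intro v hv
      rw [hz v, hw v]
      congr 1
      refine Y.pos_congr z w v ?_
      intro c hc
      exact ih (Y.rk c) (by have := Y.kid_lt v c hc; omega) c rfl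
  funext v
  exact h _ v rfl

variable (val : (V → Fin k) → Γ → Fin k) (hval : ∀ x v, val x v = x (Y.pos (val x) v))

include hval in
omit [Fintype Γ] [DecidableEq Γ] in
theorem val_inp (g : V → Fin k) (z : Γ → Fin k) : val (Y.inp g z) = z :=
  Y.val_unique (Y.inp g z) _ _ (hval _) (fun v => (Y.inp_pos g z v).symm)

omit [Fintype Γ] [DecidableEq Γ] in
/-- The parametrisation of the inputs. -/
def split : (V → Fin k) × (Γ → Fin k) ≃ (V → Fin k) × (Γ → Fin k) where
  toFun p := (Y.inp p.1 p.2, fun v => p.1 (Y.pos p.2 v))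
  invFun p := (fun w => if w = Y.pos (val p.1) (Y.nodeOf w) then p.2 (Y.nodeOf w) else p.1 w,
    val p.1)
  left_inv := by
    rintro ⟨g, z⟩
    refine Prod.ext ?_ ?_
    · funext w
      simp only [Y.val_inp val hval]
      split_ifs with h
      · rw [← h]
      · unfold inp
        rw [if_neg h]
    · exact Y.val_inp val hval g z
  right_inv := by
    rintro ⟨x, e⟩
    refine Prod.ext ?_ ?_
    · funext w
      simp only [inp]
      split_ifs with h
      · rw [hval, ← h]
      · rfl
    · funext v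
      simp only [Y.nodeOf_pos, if_true]

include hval in
/-- Transfer of an estimate for all backgrounds to uniformly random inputs. -/
theorem transfer [Fintype V] (A : Finset (V → Fin k)) (β : ℝ)
    (h : ∀ (g : V → Fin k) (B : Finset (Γ → Fin k)), (∀ z ∈ B, Y.inp g z ∈ A) →
      (B.card : ℝ) ≤ β * (k : ℝ) ^ Fintype.card Γ) (hk : 1 ≤ k) :
    (A.card : ℝ) ≤ β * Fintype.card (V → Fin k) := by
  classical
  set B : (V → Fin k) → Finset (Γ → Fin k) := fun g =>
    univ.filter (fun z => Y.inp g z ∈ A) with hB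
  have h1 : (A ×ˢ (univ : Finset (Γ → Fin k))).card = ∑ g : V → Fin k, (B g).card := by
    have h2 : (A ×ˢ (univ : Finset (Γ → Fin k))).card =
        ((univ : Finset ((V → Fin k) × (Γ → Fin k))).filter
          (fun p => Y.inp p.1 p.2 ∈ A)).card := by
      symm
      apply card_bij (fun p _ => Y.split val hval p)
      · intro p hp
        rw [mem_product]
        exact ⟨(mem_filter.1 hp).2, mem_univ _⟩
      · intro p _ p' _ hpp
        exact (Y.split val hval).injective hpp
      · intro p hp
        refine ⟨(Y.split val hval).symm p, ?_, (Y.split val hval).apply_symm_apply p⟩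
        rw [mem_filter]
        refine ⟨mem_univ _, ?_⟩
        have h3 : ((Y.split val hval) ((Y.split val hval).symm p)).1 = p.1 := by
          rw [(Y.split val hval).apply_symm_apply]
        have h4 : Y.inp ((Y.split val hval).symm p).1 ((Y.split val hval).symm p).2 = p.1 := h3
        rw [h4]
        exact (mem_product.1 hp).1
    rw [h2, card_filter, ← univ_product_univ, sum_product]
    apply sum_congr rfl
    intro g _
    rw [hB, card_filter]
  rw [card_product, card_univ, Fintype.card_fun, Fintype.card_fin] at h1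
  have h2 : ((A.card * k ^ Fintype.card Γ : ℕ) : ℝ) ≤
      Fintype.card (V → Fin k) * (β * (k : ℝ) ^ Fintype.card Γ) := by
    rw [h1]
    push_cast
    refine (sum_le_sum fun g _ => h g (B g) (fun z hz => (mem_filter.1 hz).2)).trans ?_
    rw [sum_const, nsmul_eq_mul, card_univ]
  have hk0 : (0 : ℝ) < (k : ℝ) ^ Fintype.card Γ := by
    have : (0 : ℝ) < k := by exact_mod_cast hk
    positivity
  push_cast at h2
  have h3 : (A.card : ℝ) * (k : ℝ) ^ Fintype.card Γ ≤
      (β * Fintype.card (V → Fin k)) * (k : ℝ) ^ Fintype.card Γ := by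
    refine h2.trans (le_of_eq ?_)
    ring
  exact le_of_mul_le_mul_right h3 hk0

include hval in
/-- **The bound for random inputs**: few inputs are such that at most `t` variables are read, and
either there is a live node in the beginning, or there are at some time `m` independent live
nodes. -/
theorem random_bound [Fintype V] (t m : ℕ) (hk : 1 ≤ k) (L : (V → Fin k) → List P.State)
    (R : (V → Fin k) → Bool) (hLR : ∀ x, P.IsPath x P.start (L x) (R x))
    (A : Finset (V → Fin k))
    (hA : ∀ x ∈ A, (asked P (P.start :: L x)).card ≤ t ∧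
      (Y.Crowded P (val x) 1 (P.start :: L x) ∨
        ∃ q l, q :: l <:+ P.start :: L x ∧ Y.Crowded P (val x) m (q :: l))) :
    (A.card : ℝ) ≤ (((Fintype.card Γ * t : ℕ) / (k : ℝ)) + P.size *
      ((Fintype.card Γ * t : ℕ) / (k : ℝ)) ^ m) * Fintype.card (V → Fin k) := by
  classical
  refine Y.transfer val hval A _ ?_ hk
  intro g B hB
  set ρ : ℝ := ((Fintype.card Γ * t : ℕ) : ℝ) / (k : ℝ) with hρ
  set K : ℝ := (k : ℝ) ^ Fintype.card Γ with hK
  set B0 := B.filter (fun z => Y.Crowded P z 1 (P.start :: L (Y.inp g z))) with hB0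
  set B1 : P.State → Finset (Γ → Fin k) := fun q =>
    B.filter (fun z => ∃ l, q :: l <:+ P.start :: L (Y.inp g z) ∧ Y.Crowded P z m (q :: l))
    with hB1
  have hpath : ∀ (x : V → Fin k) (r : Bool) (l : List P.State) (q q' : P.State)
      (l' : List P.State), P.IsPath x q l r → q' :: l' <:+ q :: l → P.IsPath x q' l' r := by
    intro x r l
    induction l with
    | nil =>
      intro q q' l' hp hs
      have h1 : q' :: l' = [q] := by
        rcases List.suffix_cons_iff.1 hs with h | h
        · exact h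
        · rw [List.suffix_nil] at h
          cases h
      cases h1
      exact hp
    | cons q1 l ih =>
      intro q q' l' hp hs
      rcases List.suffix_cons_iff.1 hs with h | h
      · cases h
        exact hp
      · exact ih q1 q' l' hp.2 h
  have hask : ∀ (l l' : List P.State), l <:+ l' → (asked P l).card ≤ (asked P l').card := by
    intro l l' hs
    apply card_le_card
    intro w hw
    simp only [asked, List.mem_toFinset, List.mem_map] at hw ⊢
    obtain ⟨q, hq, rfl⟩ := hw
    exact ⟨q, hs.subset hq, rfl⟩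
  have hcov : B ⊆ B0 ∪ univ.biUnion B1 := by
    intro z hz
    obtain ⟨h1, h2⟩ := hA _ (hB z hz)
    rw [Y.val_inp val hval] at h2
    rcases h2 with h2 | ⟨q, l, hs, h2⟩
    · exact mem_union_left _ (mem_filter.2 ⟨hz, h2⟩)
    · exact mem_union_right _ (mem_biUnion.2 ⟨q, mem_univ _, mem_filter.2 ⟨hz, l, hs, h2⟩⟩)
  have b0 : (B0.card : ℝ) ≤ ρ ^ 1 * K := by
    refine Y.union_bound P g t P.start 1 hk B0 ?_
    intro z hz
    obtain ⟨hzB, h1⟩ := mem_filter.1 hz
    exact ⟨L (Y.inp g z), R (Y.inp g z), hLR _, (hA _ (hB z hzB)).1, h1⟩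
  have b1 : ∀ q, ((B1 q).card : ℝ) ≤ ρ ^ m * K := by
    intro q
    refine Y.union_bound P g t q m hk (B1 q) ?_
    intro z hz
    obtain ⟨hzB, l, hs, h1⟩ := mem_filter.1 hz
    exact ⟨l, R (Y.inp g z), hpath _ _ _ _ _ _ (hLR _) hs,
      (hask _ _ hs).trans (hA _ (hB z hzB)).1, h1⟩
  calc (B.card : ℝ) ≤ ((B0 ∪ univ.biUnion B1).card : ℝ) := by exact_mod_cast card_le_card hcov
    _ ≤ (B0.card : ℝ) + ((univ.biUnion B1).card : ℝ) := by exact_mod_cast card_union_le _ _
    _ ≤ (B0.card : ℝ) + ((∑ q, (B1 q).card : ℕ) : ℝ) := by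
        have : (univ.biUnion B1).card ≤ ∑ q, (B1 q).card := card_biUnion_le
        have h2 : ((univ.biUnion B1).card : ℝ) ≤ ((∑ q, (B1 q).card : ℕ) : ℝ) := by
          exact_mod_cast this
        linarith
    _ ≤ ρ ^ 1 * K + ∑ _q : P.State, ρ ^ m * K := by
        push_cast
        exact add_le_add b0 (sum_le_sum fun q _ => b1 q)
    _ = (ρ + P.size * ρ ^ m) * K := by
        rw [sum_const, nsmul_eq_mul, card_univ]
        unfold DBP.size
        ring

omit [Fintype Γ] [DecidableEq V] in
/-- A change at the top changes only the value at the top. -/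
theorem val_update [DecidableEq V] (v0 : Γ) (htop : ∀ v, v0 ∉ Y.kid v) (x : V → Fin k)
    (y : Fin k) (hval : ∀ x v, val x v = x (Y.pos (val x) v)) :
    val (Function.update x (Y.pos (val x) v0) y) = Function.update (val x) v0 y ∧
      Y.pos (Function.update (val x) v0 y) v0 = Y.pos (val x) v0 := by
  have hp : ∀ v, Y.pos (Function.update (val x) v0 y) v = Y.pos (val x) v := by
    intro v
    refine Y.pos_congr _ _ v ?_
    intro c hc
    rw [Function.update_of_ne]
    rintro rfl
    exact htop v hc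
  refine ⟨?_, hp v0⟩
  refine Y.val_unique (Function.update x (Y.pos (val x) v0) y) _ _ (hval _) ?_
  intro v
  rw [hp v]
  by_cases h : v = v0
  · subst h
    rw [Function.update_self, Function.update_self]
  · rw [Function.update_of_ne h, Function.update_of_ne, hval x v]
    intro h1
    apply h
    have h2 := Y.nodeOf_pos (val x) v
    rw [h1, Y.nodeOf_pos] at h2
    exact h2.symm

end Net

end Pool.Agent.W997.SR
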