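import Pool.Agent.W997.SR.Final
import Pool.Agent.W997.SR.Circ
import Pool.Agent.W997.DB.Stmt

/-!
# Short forms of the statements
-/

set_option autoImplicit false

namespace Pool.Agent.W997.SR

open Finset
open Pool.Agent.W997.TS (DBP bit)
open Pool.Agent.W997.DB (ByCircuit ByProgram HardReads)

/-- The lowest bit of the value of the corner. -/
def cornerBit (h l : ℕ) (x : Input h (2 ^ l)) : Bool := bit (corner x)

theorem card_var (h l : ℕ) :
    (Fintype.card (Var h (2 ^ l)) : ℝ) = ((h : ℝ) + 1) ^ 2 * 2 ^ l := by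
  rw [Fintype.card_prod, Fintype.card_prod, Fintype.card_fin, Fintype.card_fin]
  push_cast
  ring

theorem byCircuit (h l : ℕ) (hl : 1 ≤ l) (N : ℝ) (hN : N = Fintype.card (Var h (2 ^ l))) :
    ByCircuit (cornerBit h l) (12 * (l : ℝ) ^ 2 * N ^ 2) (10 * (h : ℝ) * l + 1) := by
  have hl1 : (1 : ℝ) ≤ l := by exact_mod_cast hl
  refine ⟨circ h l hl, ?_, ?_, fun x => circ_outputs hl x⟩
  · rw [circ_size, hN, card_var]
    push_cast
    have h1 : (l : ℝ) * ((2 * l + 1) * 4) ≤ 12 * (l : ℝ) ^ 2 := by nlinarith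
    have h2 : ((h : ℝ) + 1) ^ 2 * 2 ^ (2 * l) ≤ (((h : ℝ) + 1) ^ 2 * 2 ^ l) ^ 2 := by
      have h3 : (1 : ℝ) ≤ ((h : ℝ) + 1) ^ 2 := by
        have : (0 : ℝ) ≤ h := by positivity
        nlinarith
      have h4 : (((h : ℝ) + 1) ^ 2 * 2 ^ l) ^ 2 =
          ((h : ℝ) + 1) ^ 2 * (((h : ℝ) + 1) ^ 2 * 2 ^ (2 * l)) := by
        rw [mul_comm 2 l, pow_mul]
        ring
      rw [h4]
      have h5 : (0 : ℝ) ≤ ((h : ℝ) + 1) ^ 2 * 2 ^ (2 * l) := by positivity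
      nlinarith
    calc ((h : ℝ) + 1) ^ 2 * ((l : ℝ) * ((2 * l + 1) * (2 ^ (2 * l) * 4)))
        = ((l : ℝ) * ((2 * l + 1) * 4)) * (((h : ℝ) + 1) ^ 2 * 2 ^ (2 * l)) := by ring
      _ ≤ (12 * (l : ℝ) ^ 2) * ((((h : ℝ) + 1) ^ 2 * 2 ^ l) ^ 2) :=
          mul_le_mul h1 h2 (by positivity) (by positivity)
  · have h1 := circ_depth (h := h) (l := l) hl
    have h2 : ((circ h l hl).depth : ℝ) ≤ 2 * (h : ℝ) * (4 * l + 1) + 1 := by exact_mod_cast h1
    have h3 : (0 : ℝ) ≤ h := by positivity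
    nlinarith

theorem byProgram (h l : ℕ) :
    ByProgram (cornerBit h l) (((h : ℝ) + 1) * l * Real.log 2 + 2 * Real.log ((h : ℝ) + 1))
      (((h : ℝ) + 1) ^ 2) (((h : ℝ) + 1) ^ 2) := by
  refine ⟨prog h (2 ^ l), ?_, ?_⟩
  · rw [prog_size]
    push_cast
    have h1 : ((h : ℝ) + 1) ^ 2 ≠ 0 := by positivity
    rw [Real.log_mul h1 (by positivity), Real.log_pow, Real.log_pow, Real.log_pow]
    push_cast
    apply le_of_eq
    ring
  · intro x
    obtain ⟨m, h1, h2⟩ := prog_run x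
    refine ⟨(h + 1) ^ 2, m, by push_cast; exact le_rfl, ?_, h2⟩
    have : (m : ℝ) ≤ ((h + 1) ^ 2 : ℕ) := by exact_mod_cast h1
    push_cast at this
    exact this

theorem hardReads (h l : ℕ) (hh : 4 ≤ h) (hl : 1 ≤ l) (N : ℝ)
    (hN : N = Fintype.card (Var h (2 ^ l))) (r : ℝ) (hr : 2 * ((h : ℝ) + 1) ^ 4 ≤ r) :
    HardReads (cornerBit h l) ((h : ℝ) * Real.log r / 8) (1 / ((h : ℝ) + 1))
      (N / (r * ((h : ℝ) + 1) ^ 3)) := by
  intro P T M R hS hrun hag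
  rw [hN]
  have hr0 : 0 < r := lt_of_lt_of_le (by positivity) hr
  have hP0 : 0 < (P.size : ℝ) := by
    have : 0 < P.size := Fintype.card_pos_iff.2 ⟨P.start⟩
    exact_mod_cast this
  have hS' : (P.size : ℝ) ^ 8 ≤ r ^ h := by
    rw [← Real.log_le_log_iff (by positivity) (by positivity), Real.log_pow, Real.log_pow]
    push_cast
    linarith
  exact curve h (2 ^ l) hh ((Nat.even_pow).2 ⟨even_two, by omega⟩) r hr P hS' T M R hrun hag

theorem HardReads.mono {V : Type} [Fintype V] [DecidableEq V] {k : ℕ}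
    {f : (V → Fin k) → Bool} {s s' γ γ' m m' : ℝ} (h : HardReads f s γ m) (h1 : s' ≤ s)
    (h2 : γ ≤ γ') (h3 : m' ≤ m) : HardReads f s' γ' m' := by
  intro P T M R hS hrun hag
  have h4 := h P T M R (hS.trans h1) hrun (by
    refine le_trans ?_ hag
    have : (0 : ℝ) ≤ Fintype.card (V → Fin k) := by positivity
    nlinarith)
  refine le_trans ?_ h4
  exact mul_le_mul_of_nonneg_right h3 (by positivity)

theorem polylog (c : ℕ) (hc : 1 ≤ c) : ∃ l₀ : ℕ, ∀ l : ℕ, l₀ ≤ l → ∀ h : ℕ, l ^ (c + 1) ≤ h →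
    h ≤ 2 ^ l → ∀ N : ℝ, N = Fintype.card (Var h (2 ^ l)) →
    HardReads (cornerBit h l) (Real.log N ^ c) (1 / Real.log N)
      (N / (2 * ((h : ℝ) + 1) ^ 7)) := by
  refine ⟨8 * 3 ^ c, ?_⟩
  intro l hl h h1 h2 N hN
  have hl24 : 24 ≤ l := by
    have : 3 ^ 1 ≤ 3 ^ c := Nat.pow_le_pow_right (by norm_num) hc
    omega
  have hlh : l ≤ h := by
    refine le_trans ?_ h1
    calc l = l ^ 1 := (pow_one l).symm
      _ ≤ l ^ (c + 1) := Nat.pow_le_pow_right (by omega) (by omega)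
  have hh4 : 4 ≤ h := by omega
  have hl24r : (24 : ℝ) ≤ l := by exact_mod_cast hl24
  have hlhr : (l : ℝ) ≤ h := by exact_mod_cast hlh
  have hlh2 : (l : ℝ) ^ (c + 1) ≤ h := by exact_mod_cast h1
  have hl3 : (8 : ℝ) * 3 ^ c ≤ l := by exact_mod_cast hl
  have h2r : (h : ℝ) ≤ 2 ^ l := by exact_mod_cast h2
  have hN' : N = ((h : ℝ) + 1) ^ 2 * 2 ^ l := by rw [hN, card_var]
  -- the logarithm of `N`
  have hlog2 : Real.log 2 < 0.6931471808 := Real.log_two_lt_d9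
  have hlog2' : 0.6931471803 < Real.log 2 := Real.log_two_gt_d9
  have hNle : N ≤ 2 ^ (3 * l + 2) := by
    rw [hN']
    have h3 : (1 : ℝ) ≤ 2 ^ l := one_le_pow₀ (by norm_num)
    have h4 : (h : ℝ) + 1 ≤ 2 * 2 ^ l := by linarith
    have h5 : ((h : ℝ) + 1) ^ 2 ≤ (2 * 2 ^ l) ^ 2 := pow_le_pow_left₀ (by positivity) h4 2
    calc ((h : ℝ) + 1) ^ 2 * 2 ^ l ≤ (2 * 2 ^ l) ^ 2 * 2 ^ l :=
          mul_le_mul_of_nonneg_right h5 (by positivity)
      _ = 2 ^ (3 * l + 2) := by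
          rw [pow_add, mul_comm 3 l, pow_mul]
          ring
  have hNge : (2 : ℝ) ^ l ≤ N := by
    rw [hN']
    have h3 : (1 : ℝ) ≤ ((h : ℝ) + 1) ^ 2 := by
      have : (0 : ℝ) ≤ h := by positivity
      nlinarith
    have h4 : (0 : ℝ) < 2 ^ l := by positivity
    nlinarith
  have hN0 : 0 < N := lt_of_lt_of_le (by positivity) hNge
  have hlogle : Real.log N ≤ 3 * l := by
    have h3 : Real.log N ≤ Real.log (2 ^ (3 * l + 2)) := Real.log_le_log hN0 hNle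
    rw [Real.log_pow] at h3
    push_cast at h3
    nlinarith
  have hlogge : 1 ≤ Real.log N := by
    have h3 : Real.log (2 ^ l) ≤ Real.log N := Real.log_le_log (by positivity) hNge
    rw [Real.log_pow] at h3
    nlinarith
  have hr1 : (1 : ℝ) ≤ Real.log (2 * ((h : ℝ) + 1) ^ 4) := by
    rw [Real.le_log_iff_exp_le (by positivity)]
    have h3 : Real.exp 1 < 2.7182818286 := Real.exp_one_lt_d9
    have h4 : (1 : ℝ) ≤ ((h : ℝ) + 1) ^ 4 := one_le_pow₀ (by linarith)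
    have h5 : (2 : ℝ) ≤ ((h : ℝ) + 1) ^ 4 := by
      calc (2 : ℝ) ≤ (h : ℝ) + 1 := by linarith
        _ = ((h : ℝ) + 1) ^ 1 := (pow_one _).symm
        _ ≤ ((h : ℝ) + 1) ^ 4 := pow_le_pow_right₀ (by linarith) (by norm_num)
    linarith
  refine HardReads.mono (hardReads h l hh4 (by omega) N hN _ le_rfl) ?_ ?_ ?_
  · have h3 : Real.log N ^ c ≤ (3 * l) ^ c := pow_le_pow_left₀ (by linarith) hlogle c
    have h4 : 8 * (3 * (l : ℝ)) ^ c ≤ h := by
      calc 8 * (3 * (l : ℝ)) ^ c = (8 * 3 ^ c) * (l : ℝ) ^ c := by rw [mul_pow]; ring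
        _ ≤ l * (l : ℝ) ^ c := mul_le_mul_of_nonneg_right hl3 (by positivity)
        _ = (l : ℝ) ^ (c + 1) := by ring
        _ ≤ h := hlh2
    have h5 : (h : ℝ) ≤ h * Real.log (2 * ((h : ℝ) + 1) ^ 4) := by
      have : (0 : ℝ) ≤ h := by positivity
      nlinarith
    linarith
  · have h3 : (l : ℝ) ^ 2 ≤ h := by
      calc (l : ℝ) ^ 2 ≤ (l : ℝ) ^ (c + 1) := pow_le_pow_right₀ (by linarith) (by omega)
        _ ≤ h := hlh2
    apply one_div_le_one_div_of_le (by linarith)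
    nlinarith
  · apply le_of_eq
    congr 1
    ring

end Pool.Agent.W997.SR
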